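import Pool.Agent.H40.Reach.Disc

set_option linter.unusedSectionVars false

/-! No set of unsettled states is closed under the supports of strictly complementary optimal
strategies for the limit of the discounted values. -/

namespace Pool.Agent.H40.Reach

open Set Relation

variable {S : Type} {A B : S → Type} [Fintype S] [∀ s, Fintype (A s)] [∀ s, Fintype (B s)]
  [∀ s, Nonempty (A s)] [∀ s, Nonempty (B s)]

theorem Game.avoid₁_spec (G : Game S A B) {s : S} (h : s ∈ G.Avoid₁) :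
    s ∉ G.T₂ ∧ ∃ a, ∀ b, G.next s a b ∈ G.Avoid₁ := by
  obtain ⟨Z, hs, hZ⟩ := h
  obtain ⟨h1, a, ha⟩ := hZ s hs
  exact ⟨h1, a, fun b => ⟨Z, ha b, hZ⟩⟩

theorem Game.avoid₂_spec (G : Game S A B) {s : S} (h : s ∈ G.Avoid₂) :
    s ∉ G.T₁ ∧ ∃ b, ∀ a, G.next s a b ∈ G.Avoid₂ := by
  obtain ⟨Z, hs, hZ⟩ := h
  obtain ⟨h1, b, hb⟩ := hZ s hs
  exact ⟨h1, b, fun a => ⟨Z, hb a, hZ⟩⟩

theorem exists_gap {K : Type*} [Finite K] (P : K → Prop) (g : K → ℝ) (h : ∀ k, P k → 0 < g k) :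
    ∃ κ > 0, ∀ k, P k → κ ≤ g k := by
  classical
  have := Fintype.ofFinite K
  by_cases hne : (Finset.univ.filter P).Nonempty
  · obtain ⟨k, hk, hmin⟩ := Finset.exists_min_image _ g hne
    rw [Finset.mem_filter] at hk
    exact ⟨g k, h k hk.2, fun l hl => hmin l (Finset.mem_filter.2 ⟨Finset.mem_univ _, hl⟩)⟩
  · refine ⟨1, one_pos, fun k hk => ?_⟩
    exact absurd ⟨k, Finset.mem_filter.2 ⟨Finset.mem_univ _, hk⟩⟩ hne

theorem exists_ne_zero {K : Type*} [Fintype K] {x : K → ℝ} (hx : x ∈ stdSimplex ℝ K) :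
    ∃ k, x k ≠ 0 := by
  by_contra h
  push Not at h
  have := hx.2
  simp [h] at this

/-- The data of the limit of the discounted games. -/
structure Data (G : Game S A B) (s₀ : S) where
  U : Set S
  w : S → ℝ
  θ : S → ℝ
  x : (s : S) → A s → ℝ
  y : (s : S) → B s → ℝ
  w01 : ∀ s, w s ∈ Icc (0 : ℝ) 1
  Uns : ∀ s ∈ U, ¬ G.Settled s
  Ureach : ∀ s ∈ U, ReflTransGen G.Link s₀ s
  Unext : ∀ s ∈ U, ∀ a b, G.Settled (G.next s a b) ∨ G.next s a b ∈ U
  wset₂ : ∀ s, (s ∈ G.Avoid₂ ∧ G.Lead₂ s) → w s = 0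
  wset₁ : ∀ s, ¬ (s ∈ G.Avoid₂ ∧ G.Lead₂ s) → (s ∈ G.Avoid₁ ∧ G.Lead₁ s) → w s = 1
  xmem : ∀ s, x s ∈ stdSimplex ℝ (A s)
  ymem : ∀ s, y s ∈ stdSimplex ℝ (B s)
  row : ∀ s ∈ U, RowOpt (fun a b => w (G.next s a b)) (w s) (x s)
  col : ∀ s ∈ U, ColOpt (fun a b => w (G.next s a b)) (w s) (y s)
  rows : ∀ s ∈ U, ∀ a, x s a = 0 → ∑ b, y s b * w (G.next s a b) < w s
  cols : ∀ s ∈ U, ∀ b, y s b = 0 → w s < ∑ a, x s a * w (G.next s a b)
  disc : ∀ ε > 0, ∃ l, 0 < l ∧ l < 1 ∧ ∃ v : S → ℝ, (∀ s, |v s - w s| ≤ ε) ∧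
        ∀ s ∈ U, v s = (1 - l) * G.locVal v s + l * θ s
  θ0 : ∀ s, θ s = 1 ∨ θ s = 0
  θ1 : ∀ s, θ s = 1 ↔ ∃ t, TransGen G.Link s t ∧ TransGen G.Link t s ∧ t ∈ G.Avoid₂
  noT₁ : ∀ s ∈ U, s ∉ G.T₁
  noT₂ : ∀ s ∈ U, s ∉ G.T₂

namespace Data

variable {G : Game S A B} {s₀ : S} (D : Data G s₀)

/-- closed under supports -/
def Closed (C : Finset S) : Prop :=
  C.Nonempty ∧ (∀ s ∈ C, s ∈ D.U) ∧ ∀ s ∈ C, ∀ a b, D.x s a ≠ 0 → D.y s b ≠ 0 → G.next s a b ∈ C

theorem support_eq {s : S} (hs : s ∈ D.U) {a : A s} (ha : D.x s a ≠ 0) :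
    ∑ b, D.y s b * D.w (G.next s a b) = D.w s := by
  have h1 : D.w s ≤ ∑ a, D.x s a * ∑ b, D.y s b * D.w (G.next s a b) := by
    rw [← sum_swap (fun a b => D.w (G.next s a b)) (D.x s) (D.y s)]
    exact le_avg (D.col s hs).1 fun b _ => (D.row s hs).2 b
  exact eq_of_avg_ge (D.row s hs).1 (fun a _ => (D.col s hs).2 a) h1 a ha

theorem zero_avoid {s : S} (hs : s ∈ D.U) (h0 : D.w s = 0) : s ∈ G.Avoid₂ := by
  refine ⟨{s | s ∈ D.U ∧ D.w s = 0} ∪ G.Avoid₂, Or.inl ⟨hs, h0⟩, ?_⟩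
  rintro z (⟨hz, hz0⟩ | hz)
  · refine ⟨D.noT₁ z hz, ?_⟩
    obtain ⟨b, hb⟩ := exists_ne_zero (D.col z hz).1
    refine ⟨b, fun a => ?_⟩
    have h1 := (D.col z hz).2 a
    rw [hz0] at h1
    have h2 : D.w (G.next z a b) = 0 := eq_of_avg_le (D.col z hz).1
      (f := fun b => D.w (G.next z a b)) (fun b _ => (D.w01 _).1) h1 b hb
    rcases D.Unext z hz a b with h3 | h3
    · by_cases h4 : G.next z a b ∈ G.Avoid₂ ∧ G.Lead₂ (G.next z a b)
      · exact Or.inr h4.1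
      · have h5 := h3.resolve_right h4
        have := D.wset₁ _ h4 h5
        rw [h2] at this
        exact absurd this (by norm_num)
    · exact Or.inl ⟨h3, h2⟩
  · obtain ⟨h1, b, hb⟩ := G.avoid₂_spec hz
    exact ⟨h1, b, fun a => Or.inr (hb a)⟩

theorem one_avoid {s : S} (hs : s ∈ D.U) (h0 : D.w s = 1) : s ∈ G.Avoid₁ := by
  refine ⟨{s | s ∈ D.U ∧ D.w s = 1} ∪ G.Avoid₁, Or.inl ⟨hs, h0⟩, ?_⟩
  rintro z (⟨hz, hz0⟩ | hz)
  · refine ⟨D.noT₂ z hz, ?_⟩
    obtain ⟨a, ha⟩ := exists_ne_zero (D.row z hz).1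
    refine ⟨a, fun b => ?_⟩
    have h1 := (D.row z hz).2 b
    rw [hz0] at h1
    have h2 : D.w (G.next z a b) = 1 := eq_of_avg_ge (D.row z hz).1
      (f := fun a => D.w (G.next z a b)) (fun a _ => (D.w01 _).2) h1 a ha
    rcases D.Unext z hz a b with h3 | h3
    · by_cases h4 : G.next z a b ∈ G.Avoid₂ ∧ G.Lead₂ (G.next z a b)
      · have := D.wset₂ _ h4
        rw [h2] at this
        exact absurd this (by norm_num)
      · exact Or.inr (h3.resolve_right h4).1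
    · exact Or.inl ⟨h3, h2⟩
  · obtain ⟨h1, a, ha⟩ := G.avoid₁_spec hz
    exact ⟨h1, a, fun b => Or.inr (ha b)⟩

theorem link {s t : S} (hs : s ∈ D.U) (ht : t ∈ D.U) (a : A s) (b : B s) (h : G.next s a b = t) :
    G.Link s t := ⟨D.Uns s hs, D.Uns t ht, a, b, h⟩

/-- A minimal closed set consists of states with the same value that reach each other. -/
theorem exists_minimal {C : Finset S} (hC : D.Closed C) :
    ∃ C' : Finset S, D.Closed C' ∧ (∀ s ∈ C', ∀ t ∈ C', D.w s = D.w t) ∧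
      ∀ s ∈ C', ∀ t ∈ C', TransGen G.Link s t := by
  classical
  obtain ⟨C, hC, hmin⟩ : ∃ C, D.Closed C ∧ ∀ C', D.Closed C' → C' ⊆ C → C' = C := by
    obtain ⟨n, hn⟩ : ∃ n, ∃ C, D.Closed C ∧ C.card = n := ⟨_, C, hC, rfl⟩
    induction n using Nat.strong_induction_on with
    | _ n ih =>
      obtain ⟨C, hC, rfl⟩ := hn
      by_cases h : ∀ C', D.Closed C' → C' ⊆ C → C' = C
      · exact ⟨C, hC, h⟩
      · push Not at h
        obtain ⟨C', h1, h2, h3⟩ := h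
        exact ih C'.card (Finset.card_lt_card (lt_of_le_of_ne h2 h3)) ⟨C', h1, rfl⟩
  refine ⟨C, hC, ?_, ?_⟩
  · obtain ⟨m, hm, hmax⟩ := Finset.exists_max_image C D.w hC.1
    have hcl : D.Closed (C.filter fun s => D.w s = D.w m) := by
      refine ⟨⟨m, Finset.mem_filter.2 ⟨hm, rfl⟩⟩, fun s hs => hC.2.1 s (Finset.mem_filter.1 hs).1,
        fun s hs a b ha hb => ?_⟩
      obtain ⟨hs, hsm⟩ := Finset.mem_filter.1 hs
      have hsU := hC.2.1 s hs
      refine Finset.mem_filter.2 ⟨hC.2.2 s hs a b ha hb, ?_⟩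
      rw [← hsm]
      refine eq_of_avg_ge (D.col s hsU).1 (f := fun b => D.w (G.next s a b)) (fun b hb => ?_)
        (D.support_eq hsU ha).ge b hb
      rw [hsm]
      exact hmax _ (hC.2.2 s hs a b ha hb)
    have := hmin _ hcl (Finset.filter_subset _ _)
    have h2 : ∀ s ∈ C, D.w s = D.w m := by
      intro s hs
      rw [← this] at hs
      exact (Finset.mem_filter.1 hs).2
    intro s hs t ht
    rw [h2 s hs, h2 t ht]
  · intro s hs
    have hcl : D.Closed (C.filter fun t => TransGen G.Link s t) := by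
      refine ⟨?_, fun s hs => hC.2.1 s (Finset.mem_filter.1 hs).1, fun t ht a b ha hb => ?_⟩
      · obtain ⟨a, ha⟩ := exists_ne_zero (D.row s (hC.2.1 s hs)).1
        obtain ⟨b, hb⟩ := exists_ne_zero (D.col s (hC.2.1 s hs)).1
        have h1 := hC.2.2 s hs a b ha hb
        exact ⟨_, Finset.mem_filter.2 ⟨h1, TransGen.single
          (D.link (hC.2.1 s hs) (hC.2.1 _ h1) a b rfl)⟩⟩
      · obtain ⟨ht, hst⟩ := Finset.mem_filter.1 ht
        have h1 := hC.2.2 t ht a b ha hb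
        exact Finset.mem_filter.2 ⟨h1, hst.tail (D.link (hC.2.1 t ht) (hC.2.1 _ h1) a b rfl)⟩
    have := hmin _ hcl (Finset.filter_subset _ _)
    intro t ht
    rw [← this] at ht
    exact (Finset.mem_filter.1 ht).2

theorem low {C : Finset S} (hC : D.Closed C) (hw : ∀ s ∈ C, ∀ t ∈ C, D.w s = D.w t)
    (hθ : ∀ s ∈ C, D.θ s = 0) : ∀ s ∈ C, D.w s = 0 := by
  intro s hs
  by_contra hne
  have hpos : 0 < D.w s := lt_of_le_of_ne (D.w01 s).1 (Ne.symm hne)
  obtain ⟨κ, hκ, hgap⟩ := exists_gap (K := Σ s : S, A s)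
    (fun k => k.1 ∈ C ∧ D.x k.1 k.2 = 0)
    (fun k => D.w k.1 - ∑ b, D.y k.1 b * D.w (G.next k.1 k.2 b))
    (fun k hk => sub_pos.2 (D.rows k.1 (hC.2.1 _ hk.1) k.2 hk.2))
  obtain ⟨l, hl0, hl1, v, hv, hvU⟩ := D.disc (min (κ / 2) (D.w s / 2))
    (lt_min (by positivity) (by positivity))
  set ε := min (κ / 2) (D.w s / 2)
  have hε1 : ε ≤ κ / 2 := min_le_left _ _
  have hε2 : ε ≤ D.w s / 2 := min_le_right _ _
  obtain ⟨m, hm, hmax⟩ := Finset.exists_max_image C v hC.1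
  have hmU := hC.2.1 m hm
  have hcol := D.col m hmU
  have hloc : G.locVal v m ≤ v m := by
    refine value_le (y := D.y m) ⟨hcol.1, fun a => ?_⟩
    by_cases ha : D.x m a = 0
    · have h1 := hgap ⟨m, a⟩ ⟨hm, ha⟩
      dsimp only at h1
      have h2 : ∑ b, D.y m b * v (G.next m a b) ≤ ∑ b, D.y m b * (D.w (G.next m a b) + ε) :=
        Finset.sum_le_sum fun b _ => mul_le_mul_of_nonneg_left
          (by have := (abs_le.1 (hv (G.next m a b))).2; linarith) (hcol.1.1 b)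
      have h3 : ∑ b, D.y m b * (D.w (G.next m a b) + ε)
          = ∑ b, D.y m b * D.w (G.next m a b) + ε := by
        simp only [mul_add, Finset.sum_add_distrib, ← Finset.sum_mul, hcol.1.2, one_mul]
      have h4 := (abs_le.1 (hv m)).1
      linarith
    · exact avg_le hcol.1 fun b hb => hmax _ (hC.2.2 m hm a b ha hb)
  have h1 := hvU m hmU
  rw [hθ m hm] at h1
  have h2 : v m ≤ 0 := by nlinarith
  have h3 := (abs_le.1 (hv m)).1
  have h4 := hw s hs m hm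
  linarith

theorem high {C : Finset S} (hC : D.Closed C) (hw : ∀ s ∈ C, ∀ t ∈ C, D.w s = D.w t)
    (hθ : ∀ s ∈ C, D.θ s = 1) : ∀ s ∈ C, D.w s = 1 := by
  intro s hs
  by_contra hne
  have hpos : D.w s < 1 := lt_of_le_of_ne (D.w01 s).2 hne
  obtain ⟨κ, hκ, hgap⟩ := exists_gap (K := Σ s : S, B s)
    (fun k => k.1 ∈ C ∧ D.y k.1 k.2 = 0)
    (fun k => (∑ a, D.x k.1 a * D.w (G.next k.1 a k.2)) - D.w k.1)
    (fun k hk => sub_pos.2 (D.cols k.1 (hC.2.1 _ hk.1) k.2 hk.2))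
  obtain ⟨l, hl0, hl1, v, hv, hvU⟩ := D.disc (min (κ / 2) ((1 - D.w s) / 2))
    (lt_min (by positivity) (by linarith))
  set ε := min (κ / 2) ((1 - D.w s) / 2)
  have hε1 : ε ≤ κ / 2 := min_le_left _ _
  have hε2 : ε ≤ (1 - D.w s) / 2 := min_le_right _ _
  obtain ⟨m, hm, hmin⟩ := Finset.exists_min_image C v hC.1
  have hmU := hC.2.1 m hm
  have hrow := D.row m hmU
  have hloc : v m ≤ G.locVal v m := by
    refine le_value (x := D.x m) ⟨hrow.1, fun b => ?_⟩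
    by_cases hb : D.y m b = 0
    · have h1 := hgap ⟨m, b⟩ ⟨hm, hb⟩
      dsimp only at h1
      have h2 : ∑ a, D.x m a * (D.w (G.next m a b) - ε) ≤ ∑ a, D.x m a * v (G.next m a b) :=
        Finset.sum_le_sum fun a _ => mul_le_mul_of_nonneg_left
          (by have := (abs_le.1 (hv (G.next m a b))).1; linarith) (hrow.1.1 a)
      have h3 : ∑ a, D.x m a * (D.w (G.next m a b) - ε)
          = ∑ a, D.x m a * D.w (G.next m a b) - ε := by
        simp only [mul_sub, Finset.sum_sub_distrib, ← Finset.sum_mul, hrow.1.2, one_mul]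
      have h4 := (abs_le.1 (hv m)).2
      linarith
    · exact le_avg hrow.1 fun a ha => hmin _ (hC.2.2 m hm a b ha hb)
  have h1 := hvU m hmU
  rw [hθ m hm] at h1
  have h2 : 1 ≤ v m := by nlinarith
  have h3 := (abs_le.1 (hv m)).2
  have h4 := hw s hs m hm
  linarith

/-- There is no closed set of unsettled states. -/
theorem not_closed (H : ∀ s t, ReflTransGen G.Link s₀ s → TransGen G.Link s t →
    TransGen G.Link t s → s ∈ G.Avoid₂ → t ∈ G.Avoid₁ → False) (C : Finset S) :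
    ¬ D.Closed C := by
  intro hC
  obtain ⟨C, hC, hw, htr⟩ := D.exists_minimal hC
  obtain ⟨s, hs⟩ := hC.1
  have hconst : ∀ t ∈ C, D.θ t = D.θ s := by
    intro t ht
    have h1 : D.θ t = 1 ↔ D.θ s = 1 := by
      rw [D.θ1, D.θ1]
      constructor
      · rintro ⟨u, h1, h2, h3⟩
        exact ⟨u, (htr s hs t ht).trans h1, h2.trans (htr t ht s hs), h3⟩
      · rintro ⟨u, h1, h2, h3⟩
        exact ⟨u, (htr t ht s hs).trans h1, h2.trans (htr s hs t ht), h3⟩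
    rcases D.θ0 s with h | h
    · rw [h]; exact h1.2 h
    · rcases D.θ0 t with h' | h'
      · have := h1.1 h'
        rw [h] at this
        exact absurd this (by norm_num)
      · rw [h, h']
  rcases D.θ0 s with h | h
  · have h1 := D.high hC hw (fun t ht => by rw [hconst t ht, h]) s hs
    obtain ⟨t, ht1, ht2, ht3⟩ := (D.θ1 s).1 h
    exact H t s ((D.Ureach s (hC.2.1 s hs)).trans ht1.to_reflTransGen) ht2 ht1 ht3
      (D.one_avoid (hC.2.1 s hs) h1)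
  · have h1 := D.low hC hw (fun t ht => by rw [hconst t ht, h]) s hs
    have h2 := D.zero_avoid (hC.2.1 s hs) h1
    have h3 := (D.θ1 s).2 ⟨s, htr s hs s hs, htr s hs s hs, h2⟩
    rw [h] at h3
    exact absurd h3 (by norm_num)

end Data

end Pool.Agent.H40.Reach
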