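import Mathlib

/-! Deterministic two-player concurrent games in which each player wants to reach a set. -/

namespace Pool.Agent.H40.Reach

/-- A deterministic two-player concurrent game with state set `S`; in state `s` player 1 chooses
an action in `A s` and player 2 an action in `B s`. Player `i` wants to visit `Tᵢ`. -/
structure Game (S : Type) (A B : S → Type) where
  /-- the deterministic transition map -/
  next : (s : S) → A s → B s → S
  /-- target set of player 1 -/
  T₁ : Set S
  /-- target set of player 2 -/
  T₂ : Set S

/-- A history: the list of the past stages, the most recent one first; each stage records the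
state and the two actions chosen there. -/
abbrev Hist {S : Type} (A B : S → Type) : Type := List (Σ s : S, A s × B s)

/-- A behavioural strategy of the player whose action sets are `C s`: it maps each history and
each current state to a probability distribution over the current action set. -/
abbrev Strat {S : Type} (A B C : S → Type) [∀ s, Fintype (C s)] : Type :=
  Hist A B → (s : S) → stdSimplex ℝ (C s)

namespace Game

variable {S : Type} {A B : S → Type} [∀ s, Fintype (A s)] [∀ s, Fintype (B s)]

open Classical in
/-- `G.reach T σ τ n h s` is the probability that, after the history `h` and from the current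
state `s`, the play visits `T` at the current stage or at one of the next `n` stages. -/
noncomputable def reach (G : Game S A B) (T : Set S) (σ : Strat A B A) (τ : Strat A B B) :
    ℕ → Hist A B → S → ℝ
  | 0, _, s => if s ∈ T then 1 else 0
  | n + 1, h, s => if s ∈ T then 1 else
      ∑ a, ∑ b, (σ h s).1 a * (τ h s).1 b * G.reach T σ τ n (⟨s, a, b⟩ :: h) (G.next s a b)

/-- The probability that the play from the initial state `s` ever visits `T` (the limit, which is
the supremum, of the probabilities of a visit within `n` stages). -/
noncomputable def payoff (G : Game S A B) (T : Set S) (σ : Strat A B A) (τ : Strat A B B)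
    (s : S) : ℝ :=
  ⨆ n, G.reach T σ τ n [] s

/-- `(σ, τ)` is an exact Nash equilibrium from the initial state `s`. -/
def IsNash (G : Game S A B) (s : S) (σ : Strat A B A) (τ : Strat A B B) : Prop :=
  (∀ σ' : Strat A B A, G.payoff G.T₁ σ' τ s ≤ G.payoff G.T₁ σ τ s) ∧
    ∀ τ' : Strat A B B, G.payoff G.T₂ σ τ' s ≤ G.payoff G.T₂ σ τ s

omit [∀ s, Fintype (A s)] [∀ s, Fintype (B s)]

/-- The states from which player 1 can surely avoid player 2's target `T₂`. -/
def Avoid₁ (G : Game S A B) : Set S :=
  {s | ∃ Z : Set S, s ∈ Z ∧ ∀ z ∈ Z, z ∉ G.T₂ ∧ ∃ a, ∀ b, G.next z a b ∈ Z}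

/-- The states from which player 2 can surely avoid player 1's target `T₁`. -/
def Avoid₂ (G : Game S A B) : Set S :=
  {s | ∃ Z : Set S, s ∈ Z ∧ ∀ z ∈ Z, z ∉ G.T₁ ∧ ∃ b, ∀ a, G.next z a b ∈ Z}

/-- `G.Lead₁ s`: from `s` some finite path leads to `T₁` along which player 1 only uses actions
after which, whatever player 2 does, player 1 can still surely avoid `T₂`. -/
inductive Lead₁ (G : Game S A B) : S → Prop
  | stop {s : S} : s ∈ G.T₁ → Lead₁ G s
  | move {s : S} (a : A s) (b : B s) : (∀ b', G.next s a b' ∈ G.Avoid₁) →
      Lead₁ G (G.next s a b) → Lead₁ G s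

/-- `G.Lead₂ s`: from `s` some finite path leads to `T₂` along which player 2 only uses actions
after which, whatever player 1 does, player 2 can still surely avoid `T₁`. -/
inductive Lead₂ (G : Game S A B) : S → Prop
  | stop {s : S} : s ∈ G.T₂ → Lead₂ G s
  | move {s : S} (a : A s) (b : B s) : (∀ a', G.next s a' b ∈ G.Avoid₂) →
      Lead₂ G (G.next s a b) → Lead₂ G s

/-- A state is settled if some player `i` can surely avoid the opponent's target from it and can
do so along some path that leads to his own target. -/
def Settled (G : Game S A B) (s : S) : Prop :=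
  (s ∈ G.Avoid₁ ∧ G.Lead₁ s) ∨ (s ∈ G.Avoid₂ ∧ G.Lead₂ s)

/-- A possible move between two unsettled states. -/
def Link (G : Game S A B) (s t : S) : Prop :=
  ¬ G.Settled s ∧ ¬ G.Settled t ∧ ∃ a b, G.next s a b = t

/-- The game in which, in each state `s`, player 1 may only use the actions in `P s` and player 2
only those in `Q s`. -/
def restrict (G : Game S A B) (P : (s : S) → Set (A s)) (Q : (s : S) → Set (B s)) :
    Game S (fun s => P s) (fun s => Q s) where
  next s a b := G.next s a.1 b.1
  T₁ := G.T₁
  T₂ := G.T₂

open Relation in
/-- Either `s₀` lies in both `Avoid₁` and `Avoid₂`, or no cycle of unsettled states that is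
reachable from `s₀` through unsettled states meets both `Avoid₁` and `Avoid₂`. -/
def Tame (G : Game S A B) (s₀ : S) : Prop :=
  (s₀ ∈ G.Avoid₁ ∧ s₀ ∈ G.Avoid₂) ∨
    ∀ s t, ReflTransGen G.Link s₀ s → TransGen G.Link s t → TransGen G.Link t s →
      s ∈ G.Avoid₂ → t ∈ G.Avoid₁ → False

/-- The game becomes tame by finitely many prunings. In a pruning one keeps in each state `s`
nonempty sets `P s`, `Q s` of actions of players 1 and 2, such that every deleted action of a
player leads, against every kept action of the opponent, to a state from which the opponent can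
surely avoid that player's target. -/
inductive Prunable (s₀ : S) : ∀ {A B : S → Type}, Game S A B → Prop
  | tame {A B : S → Type} {G : Game S A B} : G.Tame s₀ → Prunable s₀ G
  | prune {A B : S → Type} {G : Game S A B} (P : (s : S) → Set (A s)) (Q : (s : S) → Set (B s)) :
      (∀ s, (P s).Nonempty) → (∀ s, (Q s).Nonempty) →
      (∀ s, ∀ a ∉ P s, ∀ b ∈ Q s, G.next s a b ∈ G.Avoid₂) →
      (∀ s, ∀ b ∉ Q s, ∀ a ∈ P s, G.next s a b ∈ G.Avoid₁) →
      Prunable s₀ (G.restrict P Q) → Prunable s₀ G

end Game

end Pool.Agent.H40.Reach
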