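import Pool.Agent.H40.Reach.Matrix
import Pool.Agent.H40.Reach.Defs

set_option linter.unusedSectionVars false

/-! Vanishing discount: a fixed point of the local value operator that is approximated by values
of discounted games. -/

namespace Pool.Agent.H40.Reach

open Set

variable {S : Type} {A B : S → Type} [Fintype S] [∀ s, Fintype (A s)] [∀ s, Fintype (B s)]
  [∀ s, Nonempty (A s)] [∀ s, Nonempty (B s)]

/-- The local value at `s` when the continuation value is `w`. -/
noncomputable def Game.locVal (G : Game S A B) (w : S → ℝ) (s : S) : ℝ :=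
  value fun a b => w (G.next s a b)

theorem Game.locVal_le_add (G : Game S A B) {v w : S → ℝ} {ε : ℝ} (h : ∀ s, v s ≤ w s + ε)
    (s : S) : G.locVal v s ≤ G.locVal w s + ε :=
  value_le_value_add fun _ _ => h _

open Classical in
theorem Game.exists_disc (G : Game S A B) (U : Set S) (θ β : S → ℝ) (hθ : ∀ s, θ s ∈ Icc (0 : ℝ) 1)
    (hβ : ∀ s, β s ∈ Icc (0 : ℝ) 1) {l : ℝ} (hl0 : 0 < l) (hl1 : l < 1) :
    ∃ v : S → ℝ, (∀ s, v s ∈ Icc (0 : ℝ) 1) ∧ (∀ s ∉ U, v s = β s) ∧
      ∀ s ∈ U, v s = (1 - l) * G.locVal v s + l * θ s := by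
  let Φ : (S → ℝ) → (S → ℝ) := fun v s => if s ∈ U then (1 - l) * G.locVal v s + l * θ s else β s
  have hl : 0 ≤ 1 - l := by linarith
  obtain ⟨K, hK⟩ : ∃ K : NNReal, (K : ℝ) = 1 - l := ⟨(1 - l).toNNReal, Real.coe_toNNReal _ hl⟩
  have hlip : LipschitzWith K Φ := by
    refine LipschitzWith.of_dist_le_mul fun v v' => ?_
    rw [hK]
    rw [dist_pi_le_iff (mul_nonneg hl dist_nonneg)]
    intro s
    by_cases hs : s ∈ U
    · simp only [Φ, if_pos hs]
      have h1 : ∀ s, |v s - v' s| ≤ dist v v' := fun s => by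
        rw [← Real.dist_eq]; exact dist_le_pi_dist v v' s
      have h2 := G.locVal_le_add (v := v) (w := v') (ε := dist v v')
        (fun s => by have := (abs_le.1 (h1 s)).2; linarith) s
      have h3 := G.locVal_le_add (v := v') (w := v) (ε := dist v v')
        (fun s => by have := (abs_le.1 (h1 s)).1; linarith) s
      rw [Real.dist_eq]
      have : (1 - l) * G.locVal v s + l * θ s - ((1 - l) * G.locVal v' s + l * θ s)
          = (1 - l) * (G.locVal v s - G.locVal v' s) := by ring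
      rw [this, abs_mul, abs_of_nonneg hl]
      refine mul_le_mul_of_nonneg_left (abs_le.2 ⟨?_, ?_⟩) hl <;> linarith
    · simp only [Φ, if_neg hs, dist_self]
      exact mul_nonneg hl dist_nonneg
  have hcon : ContractingWith K Φ := ⟨by
    rw [← NNReal.coe_lt_coe, hK, NNReal.coe_one]
    linarith, hlip⟩
  set v := ContractingWith.fixedPoint Φ hcon with hv
  have hfix : Φ v = v := hcon.fixedPoint_isFixedPt
  have hvU : ∀ s ∈ U, v s = (1 - l) * G.locVal v s + l * θ s := by
    intro s hs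
    have := congrFun hfix s
    simp only [Φ, if_pos hs] at this
    exact this.symm
  have hvN : ∀ s ∉ U, v s = β s := by
    intro s hs
    have := congrFun hfix s
    simp only [Φ, if_neg hs] at this
    exact this.symm
  refine ⟨v, fun s => ?_, hvN, hvU⟩
  have : Nonempty S := ⟨s⟩
  obtain ⟨m, hm⟩ := Finite.exists_max v
  obtain ⟨n, hn⟩ := Finite.exists_min v
  have hm1 : v m ≤ 1 := by
    by_cases hU : m ∈ U
    · have h1 : G.locVal v m ≤ v m := by
        obtain ⟨y, hy⟩ := (value_spec fun a b => v (G.next m a b)).2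
        exact value_le (y := y) ⟨hy.1, fun a => avg_le hy.1 fun b _ => hm _⟩
      have h2 := hvU m hU
      have h3 := (hθ m).2
      nlinarith
    · rw [hvN m hU]; exact (hβ m).2
  have hn0 : 0 ≤ v n := by
    by_cases hU : n ∈ U
    · have h1 : v n ≤ G.locVal v n := by
        obtain ⟨x, hx⟩ := (value_spec fun a b => v (G.next n a b)).1
        exact le_value (x := x) ⟨hx.1, fun b => le_avg hx.1 fun a _ => hn _⟩
      have h2 := hvU n hU
      have h3 := (hθ n).1
      nlinarith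
    · rw [hvN n hU]; exact (hβ n).1
  exact ⟨hn0.trans (hn s), (hm s).trans hm1⟩

open Filter Topology in
theorem Game.exists_limit (G : Game S A B) (U : Set S) (θ β : S → ℝ)
    (hθ : ∀ s, θ s ∈ Icc (0 : ℝ) 1) (hβ : ∀ s, β s ∈ Icc (0 : ℝ) 1) :
    ∃ w : S → ℝ, (∀ s, w s ∈ Icc (0 : ℝ) 1) ∧ (∀ s ∉ U, w s = β s) ∧
      (∀ s ∈ U, w s = G.locVal w s) ∧
      ∀ ε > 0, ∃ l, 0 < l ∧ l < 1 ∧ ∃ v : S → ℝ, (∀ s, |v s - w s| ≤ ε) ∧
        ∀ s ∈ U, v s = (1 - l) * G.locVal v s + l * θ s := by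
  have hl0 : ∀ k : ℕ, 0 < 1 / ((k : ℝ) + 2) := fun k => by positivity
  have hl1 : ∀ k : ℕ, 1 / ((k : ℝ) + 2) < 1 := fun k => by
    rw [div_lt_one (by positivity)]
    have : (0 : ℝ) ≤ k := Nat.cast_nonneg k
    linarith
  choose v hv1 hv2 hv3 using fun k : ℕ => G.exists_disc U θ β hθ hβ (hl0 k) (hl1 k)
  have hcomp : IsCompact (Set.pi Set.univ fun _ : S => Icc (0 : ℝ) 1) :=
    isCompact_univ_pi fun _ => isCompact_Icc
  obtain ⟨w, hw, φ, hφ, hlim⟩ := hcomp.tendsto_subseq (x := v) fun k s _ => hv1 k s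
  have hlim' : ∀ ε > 0, ∀ᶠ k in atTop, ∀ s, |v (φ k) s - w s| ≤ ε := by
    intro ε hε
    have h1 := (Metric.tendsto_nhds.1 hlim) ε hε
    filter_upwards [h1] with k hk s
    rw [← Real.dist_eq]
    exact (dist_le_pi_dist _ _ s).trans hk.le
  refine ⟨w, fun s => hw s trivial, fun s hs => ?_, fun s hs => ?_, fun ε hε => ?_⟩
  · have h1 : Tendsto (fun k => v (φ k) s) atTop (𝓝 (w s)) := (tendsto_pi_nhds.1 hlim) s
    have h2 : (fun k => v (φ k) s) = fun _ => β s := by
      funext k; exact hv2 _ s hs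
    rw [h2] at h1
    exact (tendsto_nhds_unique tendsto_const_nhds h1).symm
  · have h1 : Tendsto (fun k => v (φ k) s) atTop (𝓝 (w s)) := (tendsto_pi_nhds.1 hlim) s
    have h2 : Tendsto (fun k => G.locVal (v (φ k)) s) atTop (𝓝 (G.locVal w s)) := by
      rw [Metric.tendsto_nhds]
      intro ε hε
      filter_upwards [hlim' (ε / 2) (by positivity)] with k hk
      have a1 := G.locVal_le_add (v := v (φ k)) (w := w) (ε := ε / 2)
        (fun s => by have := (abs_le.1 (hk s)).2; linarith) s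
      have a2 := G.locVal_le_add (v := w) (w := v (φ k)) (ε := ε / 2)
        (fun s => by have := (abs_le.1 (hk s)).1; linarith) s
      rw [Real.dist_eq, abs_lt]
      constructor <;> linarith
    have h3 : Tendsto (fun k : ℕ => 1 / (((φ k : ℕ) : ℝ) + 2)) atTop (𝓝 0) := by
      have : Tendsto (fun k : ℕ => 1 / ((k : ℝ) + 2)) atTop (𝓝 0) := by
        apply Tendsto.div_atTop tendsto_const_nhds
        exact tendsto_atTop_add_const_right _ _ tendsto_natCast_atTop_atTop
      exact this.comp hφ.tendsto_atTop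
    have h4 : Tendsto (fun k => (1 - 1 / (((φ k : ℕ) : ℝ) + 2)) * G.locVal (v (φ k)) s
        + 1 / (((φ k : ℕ) : ℝ) + 2) * θ s) atTop (𝓝 ((1 - 0) * G.locVal w s + 0 * θ s)) :=
      ((tendsto_const_nhds.sub h3).mul h2).add (h3.mul tendsto_const_nhds)
    have h5 : (fun k => v (φ k) s) = fun k => (1 - 1 / (((φ k : ℕ) : ℝ) + 2)) * G.locVal (v (φ k)) s
        + 1 / (((φ k : ℕ) : ℝ) + 2) * θ s := by
      funext k; exact hv3 _ s hs
    rw [h5] at h1
    have := tendsto_nhds_unique h1 h4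
    rw [this]; ring
  · obtain ⟨k, hk⟩ := (hlim' ε hε).exists
    exact ⟨_, hl0 (φ k), hl1 (φ k), v (φ k), hk, hv3 (φ k)⟩

end Pool.Agent.H40.Reach
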