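import Pool.Agent.H40.Reach.Closed

set_option linter.unusedSectionVars false

/-! Existence of the limit data, and general facts on visiting probabilities. -/

namespace Pool.Agent.H40.Reach

open Set Relation

variable {S : Type} {A B : S → Type} [Fintype S] [∀ s, Fintype (A s)] [∀ s, Fintype (B s)]
  [∀ s, Nonempty (A s)] [∀ s, Nonempty (B s)]

/-- One stage of the game. -/
def Game.Step (G : Game S A B) (s t : S) : Prop := ∃ a b, G.next s a b = t

theorem Game.link_step (G : Game S A B) {s t : S} (h : ReflTransGen G.Link s t) :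
    ReflTransGen G.Step s t := by
  induction h with
  | refl => exact ReflTransGen.refl
  | tail _ h ih => exact ih.tail h.2.2

theorem Game.exists_data (G : Game S A B) (s₀ : S)
    (h₁ : ∀ s, ReflTransGen G.Step s₀ s → s ∈ G.T₁ → ∀ t, ReflTransGen G.Step s t → t ∉ G.T₂)
    (h₂ : ∀ s, ReflTransGen G.Step s₀ s → s ∈ G.T₂ → ∀ t, ReflTransGen G.Step s t → t ∉ G.T₁) :
    ∃ D : Data G s₀, D.U = {s | ¬ G.Settled s ∧ ReflTransGen G.Link s₀ s} := by
  classical
  let U : Set S := {s | ¬ G.Settled s ∧ ReflTransGen G.Link s₀ s}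
  let θ : S → ℝ := fun s =>
    if ∃ t, TransGen G.Link s t ∧ TransGen G.Link t s ∧ t ∈ G.Avoid₂ then 1 else 0
  let β : S → ℝ := fun s => if s ∈ G.Avoid₂ ∧ G.Lead₂ s then 0 else
    if s ∈ G.Avoid₁ ∧ G.Lead₁ s then 1 else 0
  have hθ : ∀ s, θ s ∈ Icc (0 : ℝ) 1 := by
    intro s
    simp only [θ]
    split_ifs <;> norm_num
  have hβ : ∀ s, β s ∈ Icc (0 : ℝ) 1 := by
    intro s
    simp only [β]
    split_ifs <;> norm_num
  obtain ⟨w, hw01, hwN, hwU, hdisc⟩ := G.exists_limit U θ β hθ hβ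
  have hsc := fun s => exists_strict (value_spec fun a b => w (G.next s a b)).1
    (value_spec fun a b => w (G.next s a b)).2
  choose x y hx hy hxs hys using hsc
  have hsetN : ∀ s, G.Settled s → s ∉ U := fun s h h' => h'.1 h
  refine ⟨{ U := U, w := w, θ := θ, x := x, y := y, w01 := hw01, Uns := fun s h => h.1,
            Ureach := fun s h => h.2, Unext := ?_, wset₂ := ?_, wset₁ := ?_,
            xmem := fun s => (hx s).1, ymem := fun s => (hy s).1, row := ?_, col := ?_,
            rows := ?_, cols := ?_, disc := hdisc, θ0 := ?_, θ1 := ?_, noT₁ := ?_,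
            noT₂ := ?_ }, rfl⟩
  · intro s hs a b
    by_cases h : G.Settled (G.next s a b)
    · exact Or.inl h
    · exact Or.inr ⟨h, hs.2.tail ⟨hs.1, h, a, b, rfl⟩⟩
  · intro s hs
    rw [hwN s (hsetN s (Or.inr hs))]
    simp only [β, if_pos hs]
  · intro s hs hs'
    rw [hwN s (hsetN s (Or.inl hs'))]
    simp only [β, if_neg hs, if_pos hs']
  · intro s hs
    have := hx s
    rwa [show value (fun a b => w (G.next s a b)) = w s from (hwU s hs).symm] at this
  · intro s hs
    have := hy s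
    rwa [show value (fun a b => w (G.next s a b)) = w s from (hwU s hs).symm] at this
  · intro s hs a ha
    have := hxs s a ha
    rwa [show value (fun a b => w (G.next s a b)) = w s from (hwU s hs).symm] at this
  · intro s hs b hb
    have := hys s b hb
    rwa [show value (fun a b => w (G.next s a b)) = w s from (hwU s hs).symm] at this
  · intro s
    simp only [θ]
    split_ifs
    · exact Or.inl rfl
    · exact Or.inr rfl
  · intro s
    simp only [θ]
    constructor
    · intro h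
      by_contra hn
      rw [if_neg hn] at h
      norm_num at h
    · intro h
      rw [if_pos h]
  · intro s hs hT
    refine hs.1 (Or.inl ⟨⟨{t | ReflTransGen G.Step s t}, ReflTransGen.refl, ?_⟩,
      Game.Lead₁.stop hT⟩)
    intro z hz
    refine ⟨h₁ s (G.link_step hs.2) hT z hz, Classical.arbitrary _, fun b => ?_⟩
    exact hz.tail ⟨_, b, rfl⟩
  · intro s hs hT
    refine hs.1 (Or.inr ⟨⟨{t | ReflTransGen G.Step s t}, ReflTransGen.refl, ?_⟩,
      Game.Lead₂.stop hT⟩)
    intro z hz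
    refine ⟨h₂ s (G.link_step hs.2) hT z hz, Classical.arbitrary _, fun a => ?_⟩
    exact hz.tail ⟨a, _, rfl⟩

/-! ### visiting probabilities -/

section
variable (G : Game S A B) (T : Set S) (σ : Strat A B A) (τ : Strat A B B)

theorem Game.reach_zero (h : Hist A B) (s : S) (hs : s ∉ T) : G.reach T σ τ 0 h s = 0 := by
  simp [Game.reach, hs]

theorem Game.reach_mem (n : ℕ) (h : Hist A B) (s : S) (hs : s ∈ T) :
    G.reach T σ τ n h s = 1 := by
  cases n <;> simp [Game.reach, hs]

theorem Game.reach_succ (n : ℕ) (h : Hist A B) (s : S) (hs : s ∉ T) :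
    G.reach T σ τ (n + 1) h s = ∑ a, ∑ b, (σ h s).1 a * (τ h s).1 b *
      G.reach T σ τ n (⟨s, a, b⟩ :: h) (G.next s a b) := by
  simp [Game.reach, hs]

theorem sum_prod_le {s : S} (p : stdSimplex ℝ (A s)) (q : stdSimplex ℝ (B s))
    {f : A s → B s → ℝ} {c : ℝ} (h : ∀ a b, p.1 a ≠ 0 → q.1 b ≠ 0 → f a b ≤ c) :
    ∑ a, ∑ b, p.1 a * q.1 b * f a b ≤ c := by
  have e : ∑ a, ∑ b, p.1 a * q.1 b * f a b = ∑ a, p.1 a * ∑ b, q.1 b * f a b := by
    simp only [Finset.mul_sum, mul_assoc]
  rw [e]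
  exact avg_le p.2 fun a ha => avg_le q.2 fun b hb => h a b ha hb

theorem le_sum_prod {s : S} (p : stdSimplex ℝ (A s)) (q : stdSimplex ℝ (B s))
    {f : A s → B s → ℝ} {c : ℝ} (h : ∀ a b, p.1 a ≠ 0 → q.1 b ≠ 0 → c ≤ f a b) :
    c ≤ ∑ a, ∑ b, p.1 a * q.1 b * f a b := by
  have e : ∑ a, ∑ b, p.1 a * q.1 b * f a b = ∑ a, p.1 a * ∑ b, q.1 b * f a b := by
    simp only [Finset.mul_sum, mul_assoc]
  rw [e]
  exact le_avg p.2 fun a ha => le_avg q.2 fun b hb => h a b ha hb

theorem Game.reach_nonneg : ∀ (n : ℕ) (h : Hist A B) (s : S), 0 ≤ G.reach T σ τ n h s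
  | 0, h, s => by
    by_cases hs : s ∈ T
    · rw [G.reach_mem T σ τ 0 h s hs]; exact zero_le_one
    · rw [G.reach_zero T σ τ h s hs]
  | n + 1, h, s => by
    by_cases hs : s ∈ T
    · rw [G.reach_mem T σ τ _ h s hs]; exact zero_le_one
    · rw [G.reach_succ T σ τ n h s hs]
      exact le_sum_prod _ _ fun a b _ _ => Game.reach_nonneg n _ _

theorem Game.reach_le_one : ∀ (n : ℕ) (h : Hist A B) (s : S), G.reach T σ τ n h s ≤ 1
  | 0, h, s => by
    by_cases hs : s ∈ T
    · rw [G.reach_mem T σ τ 0 h s hs]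
    · rw [G.reach_zero T σ τ h s hs]; exact zero_le_one
  | n + 1, h, s => by
    by_cases hs : s ∈ T
    · rw [G.reach_mem T σ τ _ h s hs]
    · rw [G.reach_succ T σ τ n h s hs]
      exact sum_prod_le _ _ fun a b _ _ => Game.reach_le_one n _ _

theorem Game.reach_le_succ : ∀ (n : ℕ) (h : Hist A B) (s : S),
    G.reach T σ τ n h s ≤ G.reach T σ τ (n + 1) h s
  | 0, h, s => by
    by_cases hs : s ∈ T
    · rw [G.reach_mem T σ τ _ h s hs, G.reach_mem T σ τ _ h s hs]
    · rw [G.reach_zero T σ τ h s hs]; exact G.reach_nonneg T σ τ _ h s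
  | n + 1, h, s => by
    by_cases hs : s ∈ T
    · rw [G.reach_mem T σ τ _ h s hs, G.reach_mem T σ τ _ h s hs]
    · rw [G.reach_succ T σ τ _ h s hs, G.reach_succ T σ τ _ h s hs]
      refine Finset.sum_le_sum fun a _ => Finset.sum_le_sum fun b _ => ?_
      exact mul_le_mul_of_nonneg_left (Game.reach_le_succ n _ _)
        (mul_nonneg ((σ h s).2.1 a) ((τ h s).2.1 b))

theorem Game.reach_mono (h : Hist A B) (s : S) : Monotone fun n => G.reach T σ τ n h s :=
  monotone_nat_of_le_succ fun n => G.reach_le_succ T σ τ n h s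

theorem Game.reach_bdd (h : Hist A B) (s : S) :
    BddAbove (Set.range fun n => G.reach T σ τ n h s) :=
  ⟨1, by rintro _ ⟨n, rfl⟩; exact G.reach_le_one T σ τ n h s⟩

theorem Game.reach_le_payoff (n : ℕ) (s : S) :
    G.reach T σ τ n [] s ≤ G.payoff T σ τ s :=
  le_ciSup (G.reach_bdd T σ τ [] s) n

theorem Game.payoff_le {s : S} {c : ℝ} (h : ∀ n, G.reach T σ τ n [] s ≤ c) :
    G.payoff T σ τ s ≤ c := ciSup_le h

/-- The supermartingale bound. -/
theorem Game.reach_le (Inv : Hist A B → S → Prop) (V : Hist A B → S → ℝ)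
    (h0 : ∀ h s, Inv h s → 0 ≤ V h s) (hT : ∀ h s, Inv h s → s ∈ T → 1 ≤ V h s)
    (hstep : ∀ h s, Inv h s → s ∉ T → ∑ a, ∑ b, (σ h s).1 a * (τ h s).1 b *
      V (⟨s, a, b⟩ :: h) (G.next s a b) ≤ V h s)
    (hInv : ∀ h s a b, Inv h s → Inv (⟨s, a, b⟩ :: h) (G.next s a b)) :
    ∀ n h s, Inv h s → G.reach T σ τ n h s ≤ V h s := by
  intro n
  induction n with
  | zero =>
    intro h s hI
    by_cases hs : s ∈ T
    · rw [G.reach_mem T σ τ 0 h s hs]; exact hT h s hI hs
    · rw [G.reach_zero T σ τ h s hs]; exact h0 h s hI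
  | succ n ih =>
    intro h s hI
    by_cases hs : s ∈ T
    · rw [G.reach_mem T σ τ _ h s hs]; exact hT h s hI hs
    · rw [G.reach_succ T σ τ n h s hs]
      refine le_trans ?_ (hstep h s hI hs)
      refine Finset.sum_le_sum fun a _ => Finset.sum_le_sum fun b _ => ?_
      exact mul_le_mul_of_nonneg_left (ih _ _ (hInv h s a b hI))
        (mul_nonneg ((σ h s).2.1 a) ((τ h s).2.1 b))

end

end Pool.Agent.H40.Reach
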