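import Pool.Agent.H40.Reach.Nash

set_option linter.unusedSectionVars false

/-! The main existence theorem. -/

namespace Pool.Agent.H40.Reach

open Set Relation

variable {S : Type} {A B : S → Type} [Fintype S] [∀ s, Fintype (A s)] [∀ s, Fintype (B s)]
  [∀ s, Nonempty (A s)] [∀ s, Nonempty (B s)]

/-- An infinite play from `s`. -/
def Game.Play (G : Game S A B) (p : ℕ → S) (s : S) : Prop := p 0 = s ∧ ∀ n, G.Step (p n) (p (n + 1))

theorem Game.exists_play (G : Game S A B) (s : S) : ∃ p, G.Play p s := by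
  let f : S → S := fun s => G.next s (Classical.arbitrary _) (Classical.arbitrary _)
  refine ⟨fun n => f^[n] s, rfl, fun n => ?_⟩
  refine ⟨Classical.arbitrary _, Classical.arbitrary _, ?_⟩
  change f (f^[n] s) = f^[n + 1] s
  rw [Function.iterate_succ_apply']

theorem Game.play_cons (G : Game S A B) {s t : S} (h : G.Step s t) {p : ℕ → S} (hp : G.Play p t) :
    ∃ q, G.Play q s ∧ ∀ n, q (n + 1) = p n := by
  refine ⟨fun n => Nat.casesOn n s p, ⟨rfl, fun n => ?_⟩, fun n => rfl⟩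
  cases n with
  | zero => change G.Step s (p 0); rw [hp.1]; exact h
  | succ n => exact hp.2 n

theorem Game.play_visit (G : Game S A B) {s t : S} (h : ReflTransGen G.Step s t)
    {P : (ℕ → S) → Prop} (hP : ∃ p, G.Play p t ∧ P p)
    (hcons : ∀ p q, P p → (∀ n, q (n + 1) = p n) → P q) :
    ∃ p, G.Play p s ∧ P p := by
  induction h using ReflTransGen.head_induction_on with
  | refl => exact hP
  | head h _ ih =>
    obtain ⟨p, hp, hPp⟩ := ih
    obtain ⟨q, hq, hqn⟩ := G.play_cons h hp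
    exact ⟨q, hq, hcons p q hPp hqn⟩

theorem Game.exists_joint (G : Game S A B) (T T' : Set S) {s₀ s t : S}
    (h1 : ReflTransGen G.Step s₀ s) (hs : s ∈ T) (h2 : ReflTransGen G.Step s t) (ht : t ∈ T') :
    ∃ p, G.Play p s₀ ∧ (∃ i, p i ∈ T) ∧ ∃ j, p j ∈ T' := by
  obtain ⟨p0, hp0⟩ := G.exists_play t
  obtain ⟨p1, hp1, hj⟩ := G.play_visit h2 (P := fun p => ∃ j, p j ∈ T')
    ⟨p0, hp0, 0, by rw [hp0.1]; exact ht⟩
    (fun p q ⟨j, hj⟩ hq => ⟨j + 1, by rw [hq]; exact hj⟩)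
  exact G.play_visit h1 (P := fun p => (∃ i, p i ∈ T) ∧ ∃ j, p j ∈ T')
    ⟨p1, hp1, ⟨0, by rw [hp1.1]; exact hs⟩, hj⟩
    (fun p q ⟨⟨i, hi⟩, ⟨j, hj⟩⟩ hq => ⟨⟨i + 1, by rw [hq]; exact hi⟩, ⟨j + 1, by rw [hq]; exact hj⟩⟩)

theorem Game.nash_of_play (G : Game S A B) {s₀ : S} {p : ℕ → S} (hp : G.Play p s₀)
    (h1 : ∃ i, p i ∈ G.T₁) (h2 : ∃ j, p j ∈ G.T₂) :
    ∃ σ τ, G.IsNash s₀ σ τ := by
  classical
  have hc : ∀ s t, ∃ c : A s × B s, G.Step s t → G.next s c.1 c.2 = t := by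
    intro s t
    by_cases h : G.Step s t
    · obtain ⟨a, b, hab⟩ := h
      exact ⟨(a, b), fun _ => hab⟩
    · exact ⟨(Classical.arbitrary _, Classical.arbitrary _), fun h' => absurd h' h⟩
  choose c hc using hc
  let σ : Strat A B A := fun h s => pureAct (c s (p (h.length + 1))).1
  let τ : Strat A B B := fun h s => pureAct (c s (p (h.length + 1))).2
  have key : ∀ (T : Set S) (d k : ℕ) (h : Hist A B), h.length = k → p (k + d) ∈ T →
      ∃ n, G.reach T σ τ n h (p k) = 1 := by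
    intro T d
    induction d with
    | zero =>
      intro k h _ hT
      exact ⟨0, G.reach_mem T σ τ 0 h _ hT⟩
    | succ d ih =>
      intro k h hk hT
      by_cases hkT : p k ∈ T
      · exact ⟨0, G.reach_mem T σ τ 0 h _ hkT⟩
      · have hnext : G.next (p k) (c (p k) (p (k + 1))).1 (c (p k) (p (k + 1))).2 = p (k + 1) :=
          hc _ _ (hp.2 k)
        obtain ⟨n, hn⟩ := ih (k + 1)
          (⟨p k, (c (p k) (p (k + 1))).1, (c (p k) (p (k + 1))).2⟩ :: h)
          (by simp [hk]) (by rw [show k + 1 + d = k + (d + 1) by ring]; exact hT)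
        refine ⟨n + 1, ?_⟩
        rw [G.reach_succ _ _ _ n h _ hkT]
        have e1 : σ h (p k) = pureAct (c (p k) (p (k + 1))).1 := by
          simp only [σ, hk]
        have e2 : τ h (p k) = pureAct (c (p k) (p (k + 1))).2 := by
          simp only [τ, hk]
        rw [e1, e2, sum_pure (c (p k) (p (k + 1))).1 (c (p k) (p (k + 1))).2
          (fun a b => G.reach T σ τ n (⟨p k, a, b⟩ :: h) (G.next (p k) a b)), hnext]
        exact hn
  have hpay : ∀ T, (∃ i, p i ∈ T) → 1 ≤ G.payoff T σ τ s₀ := by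
    rintro T ⟨i, hi⟩
    obtain ⟨n, hn⟩ := key T i 0 [] rfl (by rw [zero_add]; exact hi)
    rw [hp.1] at hn
    rw [← hn]
    exact G.reach_le_payoff T σ τ n s₀
  refine ⟨σ, τ, fun σ' => ?_, fun τ' => ?_⟩
  · exact (G.payoff_le _ _ _ fun n => G.reach_le_one _ _ _ n _ _).trans (hpay _ h1)
  · exact (G.payoff_le _ _ _ fun n => G.reach_le_one _ _ _ n _ _).trans (hpay _ h2)

theorem Game.nash_of_avoid (G : Game S A B) {s₀ : S} (h1 : s₀ ∈ G.Avoid₁) (h2 : s₀ ∈ G.Avoid₂) :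
    ∃ σ τ, G.IsNash s₀ σ τ := by
  classical
  obtain ⟨a₁, _, _, ha, _⟩ := G.exists_pos₁
  obtain ⟨_, b₂, _, hb, _⟩ := G.exists_pos₂
  let σ : Strat A B A := fun _ s => pureAct (a₁ s)
  let τ : Strat A B B := fun _ s => pureAct (b₂ s)
  have c1 : ∀ σ', G.payoff G.T₁ σ' τ s₀ ≤ 0 := by
    intro σ'
    refine G.payoff_le _ _ _ fun n => ?_
    have := G.reach_le G.T₁ σ' τ (fun _ _ => True) (fun _ s => if s ∈ G.Avoid₂ then 0 else 1)
      (fun h s _ => by split_ifs <;> norm_num)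
      (fun h s _ hT => by
        rw [if_neg fun h' => (G.avoid₂_spec h').1 hT])
      (fun h s _ _ => by
        by_cases hs : s ∈ G.Avoid₂
        · rw [if_pos hs]
          refine sum_prod_le _ _ fun a b _ hb' => ?_
          rw [if_pos]
          rw [← pureAct_ne_zero hb']
          exact hb s hs a
        · rw [if_neg hs]
          refine sum_prod_le _ _ fun a b _ _ => ?_
          split_ifs <;> norm_num)
      (fun _ _ _ _ _ => trivial) n [] s₀ trivial
    rwa [if_pos h2] at this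
  have c2 : ∀ τ', G.payoff G.T₂ σ τ' s₀ ≤ 0 := by
    intro τ'
    refine G.payoff_le _ _ _ fun n => ?_
    have := G.reach_le G.T₂ σ τ' (fun _ _ => True) (fun _ s => if s ∈ G.Avoid₁ then 0 else 1)
      (fun h s _ => by split_ifs <;> norm_num)
      (fun h s _ hT => by
        rw [if_neg fun h' => (G.avoid₁_spec h').1 hT])
      (fun h s _ _ => by
        by_cases hs : s ∈ G.Avoid₁
        · rw [if_pos hs]
          refine sum_prod_le _ _ fun a b ha' _ => ?_
          rw [if_pos]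
          rw [← pureAct_ne_zero ha']
          exact ha s hs b
        · rw [if_neg hs]
          refine sum_prod_le _ _ fun a b _ _ => ?_
          split_ifs <;> norm_num)
      (fun _ _ _ _ _ => trivial) n [] s₀ trivial
    rwa [if_pos h1] at this
  have d : ∀ T, 0 ≤ G.payoff T σ τ s₀ := fun T =>
    (G.reach_nonneg T σ τ 0 [] s₀).trans (G.reach_le_payoff T σ τ 0 s₀)
  exact ⟨σ, τ, fun σ' => (c1 σ').trans (d _), fun τ' => (c2 τ').trans (d _)⟩

/-- Existence of an exact Nash equilibrium, unless some cycle of unsettled states meets both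
`Avoid₁` and `Avoid₂`. -/
theorem Game.exists_nash (G : Game S A B) (s₀ : S)
    (H : (s₀ ∈ G.Avoid₁ ∧ s₀ ∈ G.Avoid₂) ∨
      ∀ s t, ReflTransGen G.Link s₀ s → TransGen G.Link s t → TransGen G.Link t s →
        s ∈ G.Avoid₂ → t ∈ G.Avoid₁ → False) :
    ∃ σ τ, G.IsNash s₀ σ τ := by
  rcases H with H | H
  · exact G.nash_of_avoid H.1 H.2
  by_cases j1 : ∃ s t, ReflTransGen G.Step s₀ s ∧ s ∈ G.T₁ ∧ ReflTransGen G.Step s t ∧ t ∈ G.T₂
  · obtain ⟨s, t, h1, h2, h3, h4⟩ := j1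
    obtain ⟨p, hp, hi, hj⟩ := G.exists_joint G.T₁ G.T₂ h1 h2 h3 h4
    exact G.nash_of_play hp hi hj
  by_cases j2 : ∃ s t, ReflTransGen G.Step s₀ s ∧ s ∈ G.T₂ ∧ ReflTransGen G.Step s t ∧ t ∈ G.T₁
  · obtain ⟨s, t, h1, h2, h3, h4⟩ := j2
    obtain ⟨p, hp, hi, hj⟩ := G.exists_joint G.T₂ G.T₁ h1 h2 h3 h4
    exact G.nash_of_play hp hj hi
  obtain ⟨D, hD⟩ := G.exists_data s₀ (fun s h1 h2 t h3 h4 => j1 ⟨s, t, h1, h2, h3, h4⟩)
    (fun s h1 h2 t h3 h4 => j2 ⟨s, t, h1, h2, h3, h4⟩)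
  obtain ⟨a₁, b₁, r₁, h₁, k₁⟩ := G.exists_pos₁
  obtain ⟨a₂, b₂, r₂, h₂, k₂⟩ := G.exists_pos₂
  let P : Prof G s₀ := ⟨D, a₁, b₁, r₁, a₂, b₂, r₂, h₁, k₁, h₂, k₂⟩
  refine ⟨P.σ, P.τ, P.isNash ?_ (fun C => D.not_closed H C)⟩
  by_cases hs : G.Settled s₀
  · exact Or.inl hs
  · right
    change s₀ ∈ D.U
    rw [hD]
    exact ⟨hs, ReflTransGen.refl⟩

end Pool.Agent.H40.Reach
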