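import Mathlib

set_option linter.unusedSectionVars false

/-! Farkas' lemma, minimax values of finite matrices and strictly complementary optimal pairs. -/

namespace Pool.Agent.H40.Reach

open Finset

/-- Farkas' lemma for finitely many linear functionals on a real vector space. -/
theorem farkas {W ι : Type*} [AddCommGroup W] [Module ℝ W] [DecidableEq ι] (s : Finset ι) :
    ∀ (f : ι → W →ₗ[ℝ] ℝ) (g : W →ₗ[ℝ] ℝ),
      (∀ y, (∀ i ∈ s, 0 ≤ f i y) → 0 ≤ g y) →
      ∃ u : ι → ℝ, (∀ i, 0 ≤ u i) ∧ ∀ y, g y = ∑ i ∈ s, u i * f i y := by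
  induction s using Finset.induction_on with
  | empty =>
    intro f g h
    refine ⟨fun _ => 0, fun _ => le_rfl, fun y => ?_⟩
    have h1 := h y (by simp)
    have h2 := h (-y) (by simp)
    simp only [map_neg] at h2
    simp
    linarith
  | insert j s hj ih =>
    intro f g h
    by_cases hc : ∀ y, (∀ i ∈ s, 0 ≤ f i y) → 0 ≤ g y
    · obtain ⟨u, hu, hg⟩ := ih f g hc
      refine ⟨fun i => if i = j then 0 else u i, fun i => ?_, fun y => ?_⟩
      · dsimp only
        split_ifs
        · exact le_rfl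
        · exact hu i
      · rw [Finset.sum_insert hj, hg y]
        simp only [if_true, zero_mul, zero_add]
        refine Finset.sum_congr rfl fun i hi => ?_
        rw [if_neg]
        rintro rfl
        exact hj hi
    · push Not at hc
      obtain ⟨y0, hy0, hgy0⟩ := hc
      have hfj : f j y0 < 0 := by
        by_contra hn
        push Not at hn
        have := h y0 (by
          intro i hi
          rcases Finset.mem_insert.1 hi with rfl | hi
          · exact hn
          · exact hy0 i hi)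
        linarith
      set z : W := (-(f j y0)⁻¹) • y0 with hz
      have hpos : 0 < -(f j y0)⁻¹ := by
        have := inv_lt_zero.2 hfj
        linarith
      have hzj : f j z = -1 := by
        rw [hz, map_smul, smul_eq_mul, neg_mul, inv_mul_cancel₀ (ne_of_lt hfj)]
      have hzi : ∀ i ∈ s, 0 ≤ f i z := by
        intro i hi
        rw [hz, map_smul, smul_eq_mul]
        exact mul_nonneg hpos.le (hy0 i hi)
      have hgz : g z < 0 := by
        rw [hz, map_smul, smul_eq_mul]
        exact mul_neg_of_pos_of_neg hpos hgy0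
      obtain ⟨u, hu, hg⟩ := ih (fun i => f i + (f i z) • f j) (g + (g z) • f j) (by
        intro y hy
        have key := h (y + (f j y) • z) (by
          intro i hi
          rcases Finset.mem_insert.1 hi with rfl | hi
          · simp only [map_add, map_smul, smul_eq_mul, hzj]
            linarith
          · have := hy i hi
            simp only [LinearMap.add_apply, LinearMap.smul_apply, smul_eq_mul] at this
            simp only [map_add, map_smul, smul_eq_mul]
            linarith [mul_comm (f i z) (f j y)])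
        simp only [map_add, map_smul, smul_eq_mul] at key
        simp only [LinearMap.add_apply, LinearMap.smul_apply, smul_eq_mul]
        linarith [mul_comm (g z) (f j y)])
      refine ⟨fun i => if i = j then (∑ k ∈ s, u k * f k z) - g z else u i, fun i => ?_,
        fun y => ?_⟩
      · dsimp only
        split_ifs
        · have : 0 ≤ ∑ k ∈ s, u k * f k z :=
            Finset.sum_nonneg fun k hk => mul_nonneg (hu k) (hzi k hk)
          linarith
        · exact hu i
      · have hgy := hg y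
        simp only [LinearMap.add_apply, LinearMap.smul_apply, smul_eq_mul] at hgy
        rw [Finset.sum_insert hj]
        simp only [if_true]
        have e1 : ∑ i ∈ s, (if i = j then (∑ k ∈ s, u k * f k z) - g z else u i) * f i y
            = ∑ i ∈ s, u i * f i y := by
          refine Finset.sum_congr rfl fun i hi => ?_
          rw [if_neg]
          rintro rfl
          exact hj hi
        rw [e1]
        have e2 : ∑ i ∈ s, u i * (f i y + f i z * f j y)
            = ∑ i ∈ s, u i * f i y + (∑ i ∈ s, u i * f i z) * f j y := by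
          rw [Finset.sum_mul, ← Finset.sum_add_distrib]
          refine Finset.sum_congr rfl fun i _ => ?_
          ring
        rw [e2] at hgy
        linarith [sub_mul (∑ k ∈ s, u k * f k z) (g z) (f j y)]

variable {I J : Type*} [Fintype I] [Fintype J]

/-- `x` guarantees `v` to the row player. -/
def RowOpt (M : I → J → ℝ) (v : ℝ) (x : I → ℝ) : Prop :=
  x ∈ stdSimplex ℝ I ∧ ∀ j, v ≤ ∑ i, x i * M i j

/-- `y` holds the row player down to `v`. -/
def ColOpt (M : I → J → ℝ) (v : ℝ) (y : J → ℝ) : Prop :=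
  y ∈ stdSimplex ℝ J ∧ ∀ i, ∑ j, y j * M i j ≤ v

theorem exists_value [Nonempty I] [Nonempty J] (M : I → J → ℝ) :
    ∃ v, (∃ x, RowOpt M v x) ∧ ∃ y, ColOpt M v y := by
  classical
  have hI : (stdSimplex ℝ I).Nonempty := ⟨_, ite_eq_mem_stdSimplex ℝ (Classical.arbitrary I)⟩
  have hJ : (stdSimplex ℝ J).Nonempty := ⟨_, ite_eq_mem_stdSimplex ℝ (Classical.arbitrary J)⟩
  let f : (J → ℝ) → (I → ℝ) → ℝ := fun y x => ∑ i, ∑ j, x i * (y j * M i j)
  have hfc1 : ∀ x, Continuous fun y => f y x := by
    intro x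
    fun_prop
  have hfc2 : ∀ y, Continuous fun x => f y x := by
    intro y
    fun_prop
  have lin1 : ∀ x (p q : ℝ) (y y' : J → ℝ), f (p • y + q • y') x = p * f y x + q * f y' x := by
    intro x p q y y'
    simp only [f, Finset.mul_sum, ← Finset.sum_add_distrib]
    refine Finset.sum_congr rfl fun i _ => Finset.sum_congr rfl fun j _ => ?_
    simp only [Pi.add_apply, Pi.smul_apply, smul_eq_mul]
    ring
  have lin2 : ∀ y (p q : ℝ) (x x' : I → ℝ), f y (p • x + q • x') = p * f y x + q * f y x' := by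
    intro y p q x x'
    simp only [f, Finset.mul_sum, ← Finset.sum_add_distrib]
    refine Finset.sum_congr rfl fun i _ => Finset.sum_congr rfl fun j _ => ?_
    simp only [Pi.add_apply, Pi.smul_apply, smul_eq_mul]
    ring
  obtain ⟨y, hy, x, hx, hs⟩ := Sion.exists_isSaddlePointOn (X := stdSimplex ℝ J)
    (Y := stdSimplex ℝ I) (f := f) hJ (convex_stdSimplex ℝ J) (isCompact_stdSimplex ℝ J)
    (fun x _ => (hfc1 x).lowerSemicontinuous.lowerSemicontinuousOn _)
    (fun x _ => by
      apply ConvexOn.quasiconvexOn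
      refine ⟨convex_stdSimplex ℝ J, ?_⟩
      intro y _ y' _ p q _ _ _
      exact (lin1 x p q y y').le)
    (convex_stdSimplex ℝ I) hI (isCompact_stdSimplex ℝ I)
    (fun y _ => (hfc2 y).upperSemicontinuous.upperSemicontinuousOn _)
    (fun y _ => by
      apply ConcaveOn.quasiconcaveOn
      refine ⟨convex_stdSimplex ℝ I, ?_⟩
      intro x _ x' _ p q _ _ _
      exact (lin2 y p q x x').ge)
  refine ⟨f y x, ⟨x, hx, fun j => ?_⟩, ⟨y, hy, fun i => ?_⟩⟩
  · have h := hs (fun k => if j = k then 1 else 0) (ite_eq_mem_stdSimplex ℝ j) x hx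
    refine h.trans (le_of_eq ?_)
    simp only [f]
    refine Finset.sum_congr rfl fun i _ => ?_
    rw [Finset.sum_eq_single j]
    · simp
    · intro k _ hk
      rw [if_neg (Ne.symm hk)]; ring
    · intro h; exact absurd (Finset.mem_univ j) h
  · have h := hs y hy (fun k => if i = k then 1 else 0) (ite_eq_mem_stdSimplex ℝ i)
    refine le_trans (le_of_eq ?_) h
    simp only [f]
    rw [Finset.sum_eq_single i]
    · simp
    · intro k _ hk
      rw [if_neg (Ne.symm hk)]; simp
    · intro h; exact absurd (Finset.mem_univ i) h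


/-- The value of a finite matrix game. -/
noncomputable def value [Nonempty I] [Nonempty J] (M : I → J → ℝ) : ℝ :=
  Classical.choose (exists_value M)

theorem value_spec [Nonempty I] [Nonempty J] (M : I → J → ℝ) :
    (∃ x, RowOpt M (value M) x) ∧ ∃ y, ColOpt M (value M) y :=
  Classical.choose_spec (exists_value M)

theorem sum_swap (M : I → J → ℝ) (x : I → ℝ) (y : J → ℝ) :
    ∑ j, y j * ∑ i, x i * M i j = ∑ i, x i * ∑ j, y j * M i j := by
  simp only [Finset.mul_sum]
  rw [Finset.sum_comm]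
  refine Finset.sum_congr rfl fun i _ => Finset.sum_congr rfl fun j _ => ?_
  ring

theorem avg_le {K : Type*} [Fintype K] {x : K → ℝ} (hx : x ∈ stdSimplex ℝ K) {f : K → ℝ} {c : ℝ}
    (h : ∀ k, x k ≠ 0 → f k ≤ c) : ∑ k, x k * f k ≤ c := by
  have h1 : ∑ k, x k * f k ≤ ∑ k, x k * c := by
    refine Finset.sum_le_sum fun k _ => ?_
    by_cases h0 : x k = 0
    · simp [h0]
    · exact mul_le_mul_of_nonneg_left (h k h0) (hx.1 k)
  rw [← Finset.sum_mul, hx.2, one_mul] at h1
  exact h1

theorem le_avg {K : Type*} [Fintype K] {x : K → ℝ} (hx : x ∈ stdSimplex ℝ K) {f : K → ℝ} {c : ℝ}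
    (h : ∀ k, x k ≠ 0 → c ≤ f k) : c ≤ ∑ k, x k * f k := by
  have h1 : ∑ k, x k * c ≤ ∑ k, x k * f k := by
    refine Finset.sum_le_sum fun k _ => ?_
    by_cases h0 : x k = 0
    · simp [h0]
    · exact mul_le_mul_of_nonneg_left (h k h0) (hx.1 k)
  rw [← Finset.sum_mul, hx.2, one_mul] at h1
  exact h1

/-- If the average equals the maximum, every value with positive weight equals it. -/
theorem eq_of_avg_ge {K : Type*} [Fintype K] {x : K → ℝ} (hx : x ∈ stdSimplex ℝ K) {f : K → ℝ}
    {c : ℝ} (h : ∀ k, x k ≠ 0 → f k ≤ c) (hc : c ≤ ∑ k, x k * f k) :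
    ∀ k, x k ≠ 0 → f k = c := by
  by_contra hcon
  push Not at hcon
  obtain ⟨k, hk, hne⟩ := hcon
  have hlt : f k < c := lt_of_le_of_ne (h k hk) hne
  have hpos : 0 < x k := lt_of_le_of_ne (hx.1 k) (Ne.symm hk)
  have h1 : ∑ k, x k * f k < ∑ k, x k * c := by
    refine Finset.sum_lt_sum (fun l _ => ?_) ⟨k, Finset.mem_univ k, ?_⟩
    · by_cases h0 : x l = 0
      · simp [h0]
      · exact mul_le_mul_of_nonneg_left (h l h0) (hx.1 l)
    · exact mul_lt_mul_of_pos_left hlt hpos
  rw [← Finset.sum_mul, hx.2, one_mul] at h1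
  linarith

theorem eq_of_avg_le {K : Type*} [Fintype K] {x : K → ℝ} (hx : x ∈ stdSimplex ℝ K) {f : K → ℝ}
    {c : ℝ} (h : ∀ k, x k ≠ 0 → c ≤ f k) (hc : ∑ k, x k * f k ≤ c) :
    ∀ k, x k ≠ 0 → f k = c := by
  intro k hk
  have := eq_of_avg_ge (x := x) hx (f := fun k => -f k) (c := -c)
    (fun k hk => by have := h k hk; linarith)
    (by simp only [mul_neg, Finset.sum_neg_distrib]; linarith) k hk
  linarith

theorem RowOpt.le_of_colOpt {M : I → J → ℝ} {v c : ℝ} {x : I → ℝ} {y : J → ℝ}
    (hx : RowOpt M v x) (hy : ColOpt M c y) : v ≤ c := by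
  have h1 : v ≤ ∑ j, y j * ∑ i, x i * M i j := le_avg hy.1 fun j _ => hx.2 j
  have h2 : ∑ i, x i * ∑ j, y j * M i j ≤ c := avg_le hx.1 fun i _ => hy.2 i
  rw [sum_swap] at h1
  exact h1.trans h2

theorem value_le [Nonempty I] [Nonempty J] {M : I → J → ℝ} {c : ℝ} {y : J → ℝ}
    (hy : ColOpt M c y) : value M ≤ c := by
  obtain ⟨x, hx⟩ := (value_spec M).1
  exact hx.le_of_colOpt hy

theorem le_value [Nonempty I] [Nonempty J] {M : I → J → ℝ} {c : ℝ} {x : I → ℝ}
    (hx : RowOpt M c x) : c ≤ value M := by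
  obtain ⟨y, hy⟩ := (value_spec M).2
  exact hx.le_of_colOpt hy

theorem value_le_value_add [Nonempty I] [Nonempty J] {M M' : I → J → ℝ} {ε : ℝ}
    (h : ∀ i j, M i j ≤ M' i j + ε) : value M ≤ value M' + ε := by
  obtain ⟨y, hy⟩ := (value_spec M').2
  refine value_le (y := y) ⟨hy.1, fun i => ?_⟩
  have h1 : ∑ j, y j * M i j ≤ ∑ j, y j * (M' i j + ε) :=
    Finset.sum_le_sum fun j _ => mul_le_mul_of_nonneg_left (h i j) (hy.1.1 j)
  have h2 : ∑ j, y j * (M' i j + ε) = ∑ j, y j * M' i j + ε := by
    simp only [mul_add, Finset.sum_add_distrib, ← Finset.sum_mul, hy.1.2, one_mul]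
  have := hy.2 i
  linarith

/-- One row: either some optimal row strategy uses it, or some optimal column strategy makes it
strictly bad. -/
theorem row_dichotomy [Nonempty I] [Nonempty J] {M : I → J → ℝ} {v : ℝ}
    (hx : ∃ x, RowOpt M v x) (hy : ∃ y, ColOpt M v y) (i₀ : I) :
    ∃ x y, RowOpt M v x ∧ ColOpt M v y ∧ (x i₀ ≠ 0 ∨ ∑ j, y j * M i₀ j < v) := by
  classical
  obtain ⟨x0, hx0⟩ := hx
  obtain ⟨y0, hy0⟩ := hy
  by_cases hs : ∃ y, ColOpt M v y ∧ ∑ j, y j * M i₀ j < v
  · obtain ⟨y, hy, hlt⟩ := hs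
    exact ⟨x0, y, hx0, hy, Or.inr hlt⟩
  push Not at hs
  let f : I ⊕ J → (J → ℝ) →ₗ[ℝ] ℝ := fun k => match k with
    | Sum.inl i => ∑ j, (v - M i j) • LinearMap.proj j
    | Sum.inr j => LinearMap.proj j
  let g : (J → ℝ) →ₗ[ℝ] ℝ := ∑ j, (M i₀ j - v) • LinearMap.proj j
  have hf1 : ∀ i y, f (Sum.inl i) y = ∑ j, y j * (v - M i j) := by
    intro i y
    simp only [f, LinearMap.sum_apply, LinearMap.smul_apply, LinearMap.proj_apply, smul_eq_mul]
    exact Finset.sum_congr rfl fun j _ => mul_comm _ _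
  have hf2 : ∀ j y, f (Sum.inr j) y = y j := fun j y => rfl
  have hg1 : ∀ y, g y = ∑ j, y j * (M i₀ j - v) := by
    intro y
    simp only [g, LinearMap.sum_apply, LinearMap.smul_apply, LinearMap.proj_apply, smul_eq_mul]
    exact Finset.sum_congr rfl fun j _ => mul_comm _ _
  obtain ⟨u, hu, hgu⟩ := farkas (Finset.univ : Finset (I ⊕ J)) f g (by
    intro y hy
    have hy1 : ∀ j, 0 ≤ y j := fun j => by
      have := hy (Sum.inr j) (Finset.mem_univ _)
      rwa [hf2] at this
    have hy2 : ∀ i, 0 ≤ ∑ j, y j * (v - M i j) := fun i => by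
      have := hy (Sum.inl i) (Finset.mem_univ _)
      rwa [hf1] at this
    rw [hg1]
    have hT0 : 0 ≤ ∑ j, y j := Finset.sum_nonneg fun j _ => hy1 j
    rcases hT0.eq_or_lt with hT | hT
    · have hz : ∀ j, y j = 0 := by
        intro j
        have := (Finset.sum_eq_zero_iff_of_nonneg fun j _ => hy1 j).1 hT.symm j
          (Finset.mem_univ j)
        exact this
      simp [hz]
    · set T := ∑ j, y j
      have hopt : ColOpt M v (fun j => y j / T) := by
        refine ⟨⟨fun j => div_nonneg (hy1 j) hT.le, ?_⟩, fun i => ?_⟩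
        · rw [← Finset.sum_div]; exact div_self hT.ne'
        · have := hy2 i
          simp only [mul_sub, Finset.sum_sub_distrib, ← Finset.sum_mul] at this
          have e : ∑ j, y j / T * M i j = (∑ j, y j * M i j) / T := by
            rw [Finset.sum_div]
            exact Finset.sum_congr rfl fun j _ => by ring
          rw [e, div_le_iff₀ hT]
          linarith [mul_comm T v]
      have := hs _ hopt
      have e : ∑ j, y j / T * M i₀ j = (∑ j, y j * M i₀ j) / T := by
        rw [Finset.sum_div]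
        exact Finset.sum_congr rfl fun j _ => by ring
      rw [e, le_div_iff₀ hT] at this
      simp only [mul_sub, Finset.sum_sub_distrib, ← Finset.sum_mul]
      linarith [mul_comm T v])
  have key : ∀ j, M i₀ j - v = ∑ i, u (Sum.inl i) * (v - M i j) + u (Sum.inr j) := by
    intro j
    have h1 := hgu (Pi.single j 1)
    rw [hg1, Fintype.sum_sum_type] at h1
    simp only [hf1, hf2] at h1
    have e1 : ∀ (c : J → ℝ), ∑ k, (Pi.single j (1 : ℝ) : J → ℝ) k * c k = c j := by
      intro c
      rw [Finset.sum_eq_single j]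
      · simp
      · intro k _ hk
        rw [Pi.single_eq_of_ne hk, zero_mul]
      · intro h; exact absurd (Finset.mem_univ j) h
    simp only [e1] at h1
    have e2 : ∑ k, u (Sum.inr k) * (Pi.single j (1 : ℝ) : J → ℝ) k = u (Sum.inr j) := by
      rw [Finset.sum_eq_single j]
      · simp
      · intro k _ hk
        rw [Pi.single_eq_of_ne hk, mul_zero]
      · intro h; exact absurd (Finset.mem_univ j) h
    rw [e2] at h1
    exact h1
  set D : ℝ := 1 + ∑ i, u (Sum.inl i) with hD
  have hDpos : 0 < D := by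
    have : 0 ≤ ∑ i, u (Sum.inl i) := Finset.sum_nonneg fun i _ => hu _
    linarith
  refine ⟨fun i => (u (Sum.inl i) + if i = i₀ then 1 else 0) / D, y0, ⟨⟨fun i => ?_, ?_⟩,
    fun j => ?_⟩, hy0, Or.inl ?_⟩
  · refine div_nonneg (add_nonneg (hu _) ?_) hDpos.le
    split_ifs <;> norm_num
  · rw [← Finset.sum_div, Finset.sum_add_distrib, Finset.sum_ite_eq' Finset.univ i₀]
    simp only [Finset.mem_univ, if_true]
    rw [div_eq_one_iff_eq hDpos.ne', hD]
    ring
  · have e : ∑ i, (u (Sum.inl i) + if i = i₀ then 1 else 0) / D * M i j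
        = (∑ i, u (Sum.inl i) * M i j + M i₀ j) / D := by
      rw [add_div, Finset.sum_div]
      have : ∀ i, (u (Sum.inl i) + if i = i₀ then (1 : ℝ) else 0) / D * M i j
          = u (Sum.inl i) * M i j / D + if i = i₀ then M i j / D else 0 := by
        intro i
        split_ifs <;> ring
      simp only [this, Finset.sum_add_distrib]
      rw [Finset.sum_ite_eq' Finset.univ i₀]
      simp
    rw [e, le_div_iff₀ hDpos]
    have hk := key j
    have e2 : ∑ i, u (Sum.inl i) * (v - M i j)
        = (∑ i, u (Sum.inl i)) * v - ∑ i, u (Sum.inl i) * M i j := by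
      simp only [mul_sub, Finset.sum_sub_distrib, ← Finset.sum_mul]
    rw [e2] at hk
    have := hu (Sum.inr j)
    rw [hD]
    nlinarith
  · have : 0 < (u (Sum.inl i₀) + if i₀ = i₀ then (1 : ℝ) else 0) / D := by
      rw [if_pos rfl]
      have := hu (Sum.inl i₀)
      positivity
    exact this.ne'

theorem ColOpt.neg {M : I → J → ℝ} {v : ℝ} {y : J → ℝ} (h : ColOpt M v y) :
    RowOpt (fun j i => -M i j) (-v) y := by
  refine ⟨h.1, fun i => ?_⟩
  have := h.2 i
  simp only [mul_neg, Finset.sum_neg_distrib]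
  linarith

theorem RowOpt.neg {M : I → J → ℝ} {v : ℝ} {x : I → ℝ} (h : RowOpt M v x) :
    ColOpt (fun j i => -M i j) (-v) x := by
  refine ⟨h.1, fun j => ?_⟩
  have := h.2 j
  simp only [mul_neg, Finset.sum_neg_distrib]
  linarith

theorem col_dichotomy [Nonempty I] [Nonempty J] {M : I → J → ℝ} {v : ℝ}
    (hx : ∃ x, RowOpt M v x) (hy : ∃ y, ColOpt M v y) (j₀ : J) :
    ∃ x y, RowOpt M v x ∧ ColOpt M v y ∧ (y j₀ ≠ 0 ∨ v < ∑ i, x i * M i j₀) := by
  obtain ⟨x0, hx0⟩ := hx
  obtain ⟨y0, hy0⟩ := hy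
  obtain ⟨y, x, hy, hx, h⟩ := row_dichotomy (M := fun j i => -M i j) (v := -v)
    ⟨y0, hy0.neg⟩ ⟨x0, hx0.neg⟩ j₀
  have hx' : RowOpt M v x := by
    have := hx.neg
    simpa using this
  have hy' : ColOpt M v y := by
    have := hy.neg
    simpa using this
  refine ⟨x, y, hx', hy', h.imp id fun h => ?_⟩
  simp only [mul_neg, Finset.sum_neg_distrib] at h
  linarith

/-- Strictly complementary optimal strategies exist. -/
theorem exists_strict [Nonempty I] [Nonempty J] {M : I → J → ℝ} {v : ℝ}
    (hx : ∃ x, RowOpt M v x) (hy : ∃ y, ColOpt M v y) :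
    ∃ x y, RowOpt M v x ∧ ColOpt M v y ∧ (∀ i, x i = 0 → ∑ j, y j * M i j < v) ∧
      ∀ j, y j = 0 → v < ∑ i, x i * M i j := by
  classical
  have hr := fun i => row_dichotomy hx hy i
  have hc := fun j => col_dichotomy hx hy j
  choose xr yr hxr hyr hr using hr
  choose xc yc hxc hyc hc using hc
  let X : I ⊕ J → I → ℝ := Sum.elim xr xc
  let Y : I ⊕ J → J → ℝ := Sum.elim yr yc
  have hX : ∀ k, RowOpt M v (X k) := by rintro (i | j); exacts [hxr i, hxc j]
  have hY : ∀ k, ColOpt M v (Y k) := by rintro (i | j); exacts [hyr i, hyc j]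
  set N : ℝ := (Fintype.card (I ⊕ J) : ℝ) with hN
  have hNpos : 0 < N := by
    rw [hN]
    exact Nat.cast_pos.2 Fintype.card_pos
  have sumc : ∀ c : ℝ, ∑ _k : I ⊕ J, c = N * c := by
    intro c
    simp [hN]
  let x : I → ℝ := fun i => (∑ k, X k i) / N
  let y : J → ℝ := fun j => (∑ k, Y k j) / N
  have ex : ∀ j, ∑ i, x i * M i j = (∑ k, ∑ i, X k i * M i j) / N := by
    intro j
    rw [Finset.sum_comm, Finset.sum_div]
    refine Finset.sum_congr rfl fun i _ => ?_
    simp only [x]
    rw [div_mul_eq_mul_div, Finset.sum_mul]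
  have ey : ∀ i, ∑ j, y j * M i j = (∑ k, ∑ j, Y k j * M i j) / N := by
    intro i
    rw [Finset.sum_comm, Finset.sum_div]
    refine Finset.sum_congr rfl fun j _ => ?_
    simp only [y]
    rw [div_mul_eq_mul_div, Finset.sum_mul]
  refine ⟨x, y, ⟨⟨fun i => ?_, ?_⟩, fun j => ?_⟩, ⟨⟨fun j => ?_, ?_⟩, fun i => ?_⟩,
    fun i hi => ?_, fun j hj => ?_⟩
  · exact div_nonneg (Finset.sum_nonneg fun k _ => (hX k).1.1 i) hNpos.le
  · simp only [x]
    rw [← Finset.sum_div, Finset.sum_comm]
    simp only [(hX _).1.2]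
    rw [sumc, mul_one, div_self hNpos.ne']
  · rw [ex, le_div_iff₀ hNpos, mul_comm, ← sumc]
    exact Finset.sum_le_sum fun k _ => (hX k).2 j
  · exact div_nonneg (Finset.sum_nonneg fun k _ => (hY k).1.1 j) hNpos.le
  · simp only [y]
    rw [← Finset.sum_div, Finset.sum_comm]
    simp only [(hY _).1.2]
    rw [sumc, mul_one, div_self hNpos.ne']
  · rw [ey, div_le_iff₀ hNpos, mul_comm, ← sumc]
    exact Finset.sum_le_sum fun k _ => (hY k).2 i
  · have h0 : ∑ k, X k i = 0 := by
      have : (∑ k, X k i) / N = 0 := hi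
      rcases div_eq_zero_iff.1 this with h | h
      · exact h
      · exact absurd h hNpos.ne'
    have h1 : X (Sum.inl i) i = 0 :=
      (Finset.sum_eq_zero_iff_of_nonneg fun k _ => (hX k).1.1 i).1 h0 _ (Finset.mem_univ _)
    have h2 : ∑ j, Y (Sum.inl i) j * M i j < v := (hr i).resolve_left (fun h => h h1)
    rw [ey, div_lt_iff₀ hNpos, mul_comm, ← sumc]
    exact Finset.sum_lt_sum (fun k _ => (hY k).2 i) ⟨_, Finset.mem_univ _, h2⟩
  · have h0 : ∑ k, Y k j = 0 := by
      have : (∑ k, Y k j) / N = 0 := hj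
      rcases div_eq_zero_iff.1 this with h | h
      · exact h
      · exact absurd h hNpos.ne'
    have h1 : Y (Sum.inr j) j = 0 :=
      (Finset.sum_eq_zero_iff_of_nonneg fun k _ => (hY k).1.1 j).1 h0 _ (Finset.mem_univ _)
    have h2 : v < ∑ i, X (Sum.inr j) i * M i j := (hc j).resolve_left (fun h => h h1)
    rw [ex, lt_div_iff₀ hNpos, mul_comm, ← sumc]
    exact Finset.sum_lt_sum (fun k _ => (hX k).2 j) ⟨_, Finset.mem_univ _, h2⟩

end Pool.Agent.H40.Reach
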