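import Pool.Agent.H40.Reach.Exist

set_option linter.unusedSectionVars false

/-! The equilibrium profile. -/

namespace Pool.Agent.H40.Reach

open Set Relation

variable {S : Type} {A B : S → Type} [Fintype S] [∀ s, Fintype (A s)] [∀ s, Fintype (B s)]
  [∀ s, Nonempty (A s)] [∀ s, Nonempty (B s)]

/-- The pure mixed action. -/
noncomputable def pureAct {K : Type} [Fintype K] (k : K) : stdSimplex ℝ K :=
  ⟨_, by classical exact ite_eq_mem_stdSimplex ℝ k⟩

open Classical in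
theorem pureAct_apply {K : Type} [Fintype K] (k l : K) :
    (pureAct k).1 l = if k = l then (1 : ℝ) else 0 := by
  unfold pureAct
  congr

theorem pureAct_ne_zero {K : Type} [Fintype K] {k l : K} (h : (pureAct k).1 l ≠ 0) : k = l := by
  classical
  by_contra hn
  rw [pureAct_apply, if_neg hn] at h
  exact h rfl

inductive Mode
  | free
  | one
  | two

open Classical in
/-- The class of a state. -/
noncomputable def Game.cls (G : Game S A B) (s : S) : Mode :=
  if s ∈ G.Avoid₂ ∧ G.Lead₂ s then Mode.two else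
    if s ∈ G.Avoid₁ ∧ G.Lead₁ s then Mode.one else Mode.free

theorem Game.cls_two (G : Game S A B) {s : S} :
    G.cls s = Mode.two ↔ s ∈ G.Avoid₂ ∧ G.Lead₂ s := by
  unfold Game.cls
  split_ifs with h1 h2 <;> simp [h1]

theorem Game.cls_one (G : Game S A B) {s : S} :
    G.cls s = Mode.one ↔ ¬ (s ∈ G.Avoid₂ ∧ G.Lead₂ s) ∧ (s ∈ G.Avoid₁ ∧ G.Lead₁ s) := by
  unfold Game.cls
  split_ifs with h1 h2
  · simp [h1]
  · simp only [true_iff]; exact ⟨h1, h2⟩
  · simp only [false_iff]; exact fun h => h2 h.2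

theorem Game.cls_free (G : Game S A B) {s : S} :
    G.cls s = Mode.free ↔ ¬ G.Settled s := by
  unfold Game.cls Game.Settled
  split_ifs with h1 h2
  · simp [h1]
  · simp [h2]
  · simp only [true_iff]
    rintro (h | h)
    · exact h2 h
    · exact h1 h

/-- mode after looking at the state `s` -/
noncomputable def Game.upd (G : Game S A B) : Mode → S → Mode
  | Mode.free, s => G.cls s
  | Mode.one, _ => Mode.one
  | Mode.two, _ => Mode.two

/-- mode determined by a history -/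
noncomputable def Game.modeOf (G : Game S A B) : Hist A B → Mode
  | [] => Mode.free
  | ⟨s, _, _⟩ :: h => G.upd (G.modeOf h) s

theorem Game.modeOf_cons (G : Game S A B) (s : S) (a : A s) (b : B s) (h : Hist A B) :
    G.modeOf (⟨s, a, b⟩ :: h) = G.upd (G.modeOf h) s := rfl

theorem Game.upd_free (G : Game S A B) {m : Mode} {s : S} :
    G.upd m s = Mode.free ↔ m = Mode.free ∧ G.cls s = Mode.free := by
  cases m <;> simp [Game.upd]

/-- Lead with length. -/
def Game.Ld₂ (G : Game S A B) : ℕ → S → Prop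
  | 0, s => s ∈ G.T₂
  | n + 1, s => ∃ a b, (∀ a', G.next s a' b ∈ G.Avoid₂) ∧ G.Ld₂ n (G.next s a b)

def Game.Ld₁ (G : Game S A B) : ℕ → S → Prop
  | 0, s => s ∈ G.T₁
  | n + 1, s => ∃ a b, (∀ b', G.next s a b' ∈ G.Avoid₁) ∧ G.Ld₁ n (G.next s a b)

theorem Game.lead₂_iff (G : Game S A B) (s : S) : G.Lead₂ s ↔ ∃ n, G.Ld₂ n s := by
  constructor
  · intro h
    induction h with
    | stop h => exact ⟨0, h⟩
    | move a b hb _ ih =>
      obtain ⟨n, hn⟩ := ih
      exact ⟨n + 1, a, b, hb, hn⟩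
  · rintro ⟨n, hn⟩
    induction n generalizing s with
    | zero => exact Game.Lead₂.stop hn
    | succ n ih =>
      obtain ⟨a, b, h1, h2⟩ := hn
      exact Game.Lead₂.move a b h1 (ih _ h2)

theorem Game.lead₁_iff (G : Game S A B) (s : S) : G.Lead₁ s ↔ ∃ n, G.Ld₁ n s := by
  constructor
  · intro h
    induction h with
    | stop h => exact ⟨0, h⟩
    | move a b hb _ ih =>
      obtain ⟨n, hn⟩ := ih
      exact ⟨n + 1, a, b, hb, hn⟩
  · rintro ⟨n, hn⟩
    induction n generalizing s with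
    | zero => exact Game.Lead₁.stop hn
    | succ n ih =>
      obtain ⟨a, b, h1, h2⟩ := hn
      exact Game.Lead₁.move a b h1 (ih _ h2)

theorem Game.exists_pos₂ (G : Game S A B) : ∃ (a₂ : (s : S) → A s) (b₂ : (s : S) → B s)
    (r : S → ℕ), (∀ s ∈ G.Avoid₂, ∀ a, G.next s a (b₂ s) ∈ G.Avoid₂) ∧
      ∀ s, G.Lead₂ s → s ∈ G.T₂ ∨ (G.next s (a₂ s) (b₂ s) ∈ G.Avoid₂ ∧
        G.Lead₂ (G.next s (a₂ s) (b₂ s)) ∧ r (G.next s (a₂ s) (b₂ s)) < r s) := by
  classical
  let r : S → ℕ := fun s => if h : ∃ n, G.Ld₂ n s then Nat.find h else 0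
  have hex : ∀ s, ∃ (p : A s × B s), (s ∈ G.Avoid₂ → ∀ a, G.next s a p.2 ∈ G.Avoid₂) ∧
      (G.Lead₂ s → s ∈ G.T₂ ∨ (G.next s p.1 p.2 ∈ G.Avoid₂ ∧
        G.Lead₂ (G.next s p.1 p.2) ∧ r (G.next s p.1 p.2) < r s)) := by
    intro s
    by_cases h : G.Lead₂ s ∧ s ∉ G.T₂
    · have h1 := (G.lead₂_iff s).1 h.1
      have h2 := Nat.find_spec h1
      have hr : r s = Nat.find h1 := dif_pos h1
      rcases hn : Nat.find h1 with _ | n
      · rw [hn] at h2
        exact absurd h2 h.2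
      · rw [hn] at h2
        obtain ⟨a, b, h3, h4⟩ := h2
        refine ⟨(a, b), fun _ => h3, fun _ => Or.inr ⟨h3 a, (G.lead₂_iff _).2 ⟨n, h4⟩, ?_⟩⟩
        rw [hr, hn]
        have h5 : ∃ n, G.Ld₂ n (G.next s a b) := ⟨n, h4⟩
        have h6 : r (G.next s a b) = Nat.find h5 := dif_pos h5
        change r (G.next s a b) < n + 1
        rw [h6]
        exact Nat.lt_succ_of_le (Nat.find_min' h5 h4)
    · by_cases h1 : s ∈ G.Avoid₂
      · obtain ⟨_, b, hb⟩ := G.avoid₂_spec h1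
        refine ⟨(Classical.arbitrary _, b), fun _ => hb, fun h2 => ?_⟩
        by_contra hn
        push Not at hn
        exact h ⟨h2, hn.1⟩
      · refine ⟨(Classical.arbitrary _, Classical.arbitrary _), fun h => absurd h h1,
          fun h2 => ?_⟩
        by_contra hn
        push Not at hn
        exact h ⟨h2, hn.1⟩
  choose p hp1 hp2 using hex
  exact ⟨fun s => (p s).1, fun s => (p s).2, r, hp1, hp2⟩

theorem Game.exists_pos₁ (G : Game S A B) : ∃ (a₁ : (s : S) → A s) (b₁ : (s : S) → B s)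
    (r : S → ℕ), (∀ s ∈ G.Avoid₁, ∀ b, G.next s (a₁ s) b ∈ G.Avoid₁) ∧
      ∀ s, G.Lead₁ s → s ∈ G.T₁ ∨ (G.next s (a₁ s) (b₁ s) ∈ G.Avoid₁ ∧
        G.Lead₁ (G.next s (a₁ s) (b₁ s)) ∧ r (G.next s (a₁ s) (b₁ s)) < r s) := by
  classical
  let r : S → ℕ := fun s => if h : ∃ n, G.Ld₁ n s then Nat.find h else 0
  have hex : ∀ s, ∃ (p : A s × B s), (s ∈ G.Avoid₁ → ∀ b, G.next s p.1 b ∈ G.Avoid₁) ∧
      (G.Lead₁ s → s ∈ G.T₁ ∨ (G.next s p.1 p.2 ∈ G.Avoid₁ ∧
        G.Lead₁ (G.next s p.1 p.2) ∧ r (G.next s p.1 p.2) < r s)) := by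
    intro s
    by_cases h : G.Lead₁ s ∧ s ∉ G.T₁
    · have h1 := (G.lead₁_iff s).1 h.1
      have h2 := Nat.find_spec h1
      have hr : r s = Nat.find h1 := dif_pos h1
      rcases hn : Nat.find h1 with _ | n
      · rw [hn] at h2
        exact absurd h2 h.2
      · rw [hn] at h2
        obtain ⟨a, b, h3, h4⟩ := h2
        refine ⟨(a, b), fun _ => h3, fun _ => Or.inr ⟨h3 b, (G.lead₁_iff _).2 ⟨n, h4⟩, ?_⟩⟩
        rw [hr, hn]
        have h5 : ∃ n, G.Ld₁ n (G.next s a b) := ⟨n, h4⟩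
        have h6 : r (G.next s a b) = Nat.find h5 := dif_pos h5
        change r (G.next s a b) < n + 1
        rw [h6]
        exact Nat.lt_succ_of_le (Nat.find_min' h5 h4)
    · by_cases h1 : s ∈ G.Avoid₁
      · obtain ⟨_, a, ha⟩ := G.avoid₁_spec h1
        refine ⟨(a, Classical.arbitrary _), fun _ => ha, fun h2 => ?_⟩
        by_contra hn
        push Not at hn
        exact h ⟨h2, hn.1⟩
      · refine ⟨(Classical.arbitrary _, Classical.arbitrary _), fun h => absurd h h1,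
          fun h2 => ?_⟩
        by_contra hn
        push Not at hn
        exact h ⟨h2, hn.1⟩
  choose p hp1 hp2 using hex
  exact ⟨fun s => (p s).1, fun s => (p s).2, r, hp1, hp2⟩

theorem sum_pure {s : S} (a₀ : A s) (b₀ : B s) (f : A s → B s → ℝ) :
    ∑ a, ∑ b, (pureAct a₀).1 a * (pureAct b₀).1 b * f a b = f a₀ b₀ := by
  refine le_antisymm (sum_prod_le _ _ fun a b ha hb => ?_) (le_sum_prod _ _ fun a b ha hb => ?_)
  · rw [← pureAct_ne_zero ha, ← pureAct_ne_zero hb]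
  · rw [← pureAct_ne_zero ha, ← pureAct_ne_zero hb]

/-- A profile given by mode-dependent positional strategies. -/
structure Prof (G : Game S A B) (s₀ : S) where
  D : Data G s₀
  a₁ : (s : S) → A s
  b₁ : (s : S) → B s
  r₁ : S → ℕ
  a₂ : (s : S) → A s
  b₂ : (s : S) → B s
  r₂ : S → ℕ
  h₁ : ∀ s ∈ G.Avoid₁, ∀ b, G.next s (a₁ s) b ∈ G.Avoid₁
  k₁ : ∀ s, G.Lead₁ s → s ∈ G.T₁ ∨ (G.next s (a₁ s) (b₁ s) ∈ G.Avoid₁ ∧
        G.Lead₁ (G.next s (a₁ s) (b₁ s)) ∧ r₁ (G.next s (a₁ s) (b₁ s)) < r₁ s)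
  h₂ : ∀ s ∈ G.Avoid₂, ∀ a, G.next s a (b₂ s) ∈ G.Avoid₂
  k₂ : ∀ s, G.Lead₂ s → s ∈ G.T₂ ∨ (G.next s (a₂ s) (b₂ s) ∈ G.Avoid₂ ∧
        G.Lead₂ (G.next s (a₂ s) (b₂ s)) ∧ r₂ (G.next s (a₂ s) (b₂ s)) < r₂ s)

namespace Prof

variable {G : Game S A B} {s₀ : S} (P : Prof G s₀)

noncomputable def X : Mode → (s : S) → stdSimplex ℝ (A s)
  | Mode.free, s => ⟨P.D.x s, P.D.xmem s⟩
  | Mode.one, s => pureAct (P.a₁ s)
  | Mode.two, s => pureAct (P.a₂ s)

noncomputable def Y : Mode → (s : S) → stdSimplex ℝ (B s)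
  | Mode.free, s => ⟨P.D.y s, P.D.ymem s⟩
  | Mode.one, s => pureAct (P.b₁ s)
  | Mode.two, s => pureAct (P.b₂ s)

noncomputable def σ : Strat A B A := fun h s => P.X (G.upd (G.modeOf h) s) s
noncomputable def τ : Strat A B B := fun h s => P.Y (G.upd (G.modeOf h) s) s

/-- the invariant: while no settled state has been seen, the state lies in `U` or is settled -/
def Inv (h : Hist A B) (s : S) : Prop :=
  G.modeOf h = Mode.free → G.cls s = Mode.free → s ∈ P.D.U

theorem inv_step (h : Hist A B) (s : S) (a : A s) (b : B s) (hI : P.Inv h s) :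
    P.Inv (⟨s, a, b⟩ :: h) (G.next s a b) := by
  intro h1 h2
  rw [G.modeOf_cons, G.upd_free] at h1
  rcases P.D.Unext s (hI h1.1 h1.2) a b with h3 | h3
  · exact absurd h3 (G.cls_free.1 h2)
  · exact h3

open Classical in
noncomputable def V₁ (h : Hist A B) (s : S) : ℝ :=
  match G.upd (G.modeOf h) s with
  | Mode.free => P.D.w s
  | Mode.one => 1
  | Mode.two => if s ∈ G.Avoid₂ then 0 else 1

open Classical in
noncomputable def V₂ (h : Hist A B) (s : S) : ℝ :=
  match G.upd (G.modeOf h) s with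
  | Mode.free => 1 - P.D.w s
  | Mode.one => if s ∈ G.Avoid₁ then 0 else 1
  | Mode.two => 1

theorem V₁_mem (h : Hist A B) (s : S) : 0 ≤ P.V₁ h s ∧ P.V₁ h s ≤ 1 := by
  unfold V₁
  have := P.D.w01 s
  cases G.upd (G.modeOf h) s
  · exact ⟨this.1, this.2⟩
  · norm_num
  · dsimp only; split_ifs <;> norm_num

theorem V₂_mem (h : Hist A B) (s : S) : 0 ≤ P.V₂ h s ∧ P.V₂ h s ≤ 1 := by
  unfold V₂
  have := P.D.w01 s
  cases G.upd (G.modeOf h) s
  · dsimp only; constructor <;> linarith [this.1, this.2]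
  · dsimp only; split_ifs <;> norm_num
  · norm_num

theorem V₁_two {h : Hist A B} {s : S} (hm : G.upd (G.modeOf h) s = Mode.two)
    (hA : s ∈ G.Avoid₂) : P.V₁ h s = 0 := by
  unfold V₁
  rw [hm]
  dsimp only
  rw [if_pos hA]

theorem V₂_one {h : Hist A B} {s : S} (hm : G.upd (G.modeOf h) s = Mode.one)
    (hA : s ∈ G.Avoid₁) : P.V₂ h s = 0 := by
  unfold V₂
  rw [hm]
  dsimp only
  rw [if_pos hA]

/-- while free, the next value of `V₁` is `w` -/
theorem V₁_free {h : Hist A B} {s : S} (hm : G.modeOf h = Mode.free) : P.V₁ h s = P.D.w s := by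
  unfold V₁
  rw [hm]
  change (match G.cls s with
    | Mode.free => P.D.w s
    | Mode.one => 1
    | Mode.two => _) = P.D.w s
  rcases hc : G.cls s with _ | _ | _
  · rfl
  · have := G.cls_one.1 hc
    exact (P.D.wset₁ s this.1 this.2).symm
  · have := G.cls_two.1 hc
    dsimp only
    rw [if_pos this.1]
    exact (P.D.wset₂ s this).symm

theorem V₂_free {h : Hist A B} {s : S} (hm : G.modeOf h = Mode.free) :
    P.V₂ h s = 1 - P.D.w s := by
  unfold V₂
  rw [hm]
  change (match G.cls s with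
    | Mode.free => 1 - P.D.w s
    | Mode.one => _
    | Mode.two => 1) = 1 - P.D.w s
  rcases hc : G.cls s with _ | _ | _
  · rfl
  · have := G.cls_one.1 hc
    dsimp only
    rw [if_pos this.2.1, P.D.wset₁ s this.1 this.2]
    norm_num
  · have := G.cls_two.1 hc
    dsimp only
    rw [P.D.wset₂ s this]
    norm_num

theorem bound₁ (σ' : Strat A B A) (n : ℕ) (h : Hist A B) (s : S) (hI : P.Inv h s) :
    G.reach G.T₁ σ' P.τ n h s ≤ P.V₁ h s := by
  refine G.reach_le G.T₁ σ' P.τ P.Inv P.V₁ (fun h s _ => (P.V₁_mem h s).1) ?_ ?_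
    (fun h s a b => P.inv_step h s a b) n h s hI
  · intro h s hI hT
    rcases hm : G.upd (G.modeOf h) s with _ | _ | _
    · obtain ⟨h1, h2⟩ := G.upd_free.1 hm
      exact absurd hT (P.D.noT₁ s (hI h1 h2))
    · unfold V₁; rw [hm]
    · unfold V₁; rw [hm]
      dsimp only
      rw [if_neg]
      intro h1
      exact (G.avoid₂_spec h1).1 hT
  · intro h s hI hT
    rcases hm : G.upd (G.modeOf h) s with _ | _ | _
    · obtain ⟨h1, h2⟩ := G.upd_free.1 hm
      have hsU := hI h1 h2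
      have e1 : P.V₁ h s = P.D.w s := P.V₁_free h1
      have e2 : ∀ a b, P.V₁ (⟨s, a, b⟩ :: h) (G.next s a b) = P.D.w (G.next s a b) :=
        fun a b => P.V₁_free (by rw [G.modeOf_cons, hm])
      have e3 : (P.τ h s).1 = P.D.y s := by
        change (P.Y (G.upd (G.modeOf h) s) s).1 = _
        rw [hm]; rfl
      rw [e1]
      have e : ∑ a, ∑ b, (σ' h s).1 a * (P.τ h s).1 b * P.V₁ (⟨s, a, b⟩ :: h) (G.next s a b)
          = ∑ a, (σ' h s).1 a * ∑ b, P.D.y s b * P.D.w (G.next s a b) := by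
        rw [e3]
        simp only [Finset.mul_sum, mul_assoc, e2]
      rw [e]
      exact avg_le (σ' h s).2 fun a _ => (P.D.col s hsU).2 a
    · have e1 : P.V₁ h s = 1 := by unfold V₁; rw [hm]
      rw [e1]
      exact sum_prod_le _ _ fun a b _ _ => (P.V₁_mem _ _).2
    · by_cases hA : s ∈ G.Avoid₂
      · have e1 : P.V₁ h s = 0 := by
          unfold V₁; rw [hm]; dsimp only; rw [if_pos hA]
        rw [e1]
        refine sum_prod_le _ _ fun a b _ hb => ?_
        have e3 : (P.τ h s).1 = (pureAct (P.b₂ s)).1 := by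
          change (P.Y (G.upd (G.modeOf h) s) s).1 = _
          rw [hm]; rfl
        rw [e3] at hb
        have h4 : G.next s a b ∈ G.Avoid₂ := by
          rw [← pureAct_ne_zero hb]; exact P.h₂ s hA a
        exact (P.V₁_two (by rw [G.modeOf_cons, hm]; rfl) h4).le
      · have e1 : P.V₁ h s = 1 := by
          unfold V₁; rw [hm]; dsimp only; rw [if_neg hA]
        rw [e1]
        exact sum_prod_le _ _ fun a b _ _ => (P.V₁_mem _ _).2

theorem bound₂ (τ' : Strat A B B) (n : ℕ) (h : Hist A B) (s : S) (hI : P.Inv h s) :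
    G.reach G.T₂ P.σ τ' n h s ≤ P.V₂ h s := by
  refine G.reach_le G.T₂ P.σ τ' P.Inv P.V₂ (fun h s _ => (P.V₂_mem h s).1) ?_ ?_
    (fun h s a b => P.inv_step h s a b) n h s hI
  · intro h s hI hT
    rcases hm : G.upd (G.modeOf h) s with _ | _ | _
    · obtain ⟨h1, h2⟩ := G.upd_free.1 hm
      exact absurd hT (P.D.noT₂ s (hI h1 h2))
    · unfold V₂; rw [hm]
      dsimp only
      rw [if_neg]
      intro h1
      exact (G.avoid₁_spec h1).1 hT
    · unfold V₂; rw [hm]
  · intro h s hI hT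
    rcases hm : G.upd (G.modeOf h) s with _ | _ | _
    · obtain ⟨h1, h2⟩ := G.upd_free.1 hm
      have hsU := hI h1 h2
      have e1 : P.V₂ h s = 1 - P.D.w s := P.V₂_free h1
      have e2 : ∀ a b, P.V₂ (⟨s, a, b⟩ :: h) (G.next s a b) = 1 - P.D.w (G.next s a b) :=
        fun a b => P.V₂_free (by rw [G.modeOf_cons, hm])
      have e3 : (P.σ h s).1 = P.D.x s := by
        change (P.X (G.upd (G.modeOf h) s) s).1 = _
        rw [hm]; rfl
      rw [e1]
      have e : ∑ a, ∑ b, (P.σ h s).1 a * (τ' h s).1 b * P.V₂ (⟨s, a, b⟩ :: h) (G.next s a b)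
          = ∑ b, (τ' h s).1 b * ∑ a, P.D.x s a * (1 - P.D.w (G.next s a b)) := by
        rw [e3, Finset.sum_comm]
        simp only [Finset.mul_sum, e2]
        refine Finset.sum_congr rfl fun b _ => Finset.sum_congr rfl fun a _ => ?_
        ring
      rw [e]
      refine avg_le (τ' h s).2 fun b _ => ?_
      have h5 : ∑ a, P.D.x s a * (1 - P.D.w (G.next s a b))
          = 1 - ∑ a, P.D.x s a * P.D.w (G.next s a b) := by
        simp only [mul_sub, mul_one, Finset.sum_sub_distrib, (P.D.xmem s).2]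
      rw [h5]
      have := (P.D.row s hsU).2 b
      linarith
    · by_cases hA : s ∈ G.Avoid₁
      · have e1 : P.V₂ h s = 0 := by
          unfold V₂; rw [hm]; dsimp only; rw [if_pos hA]
        rw [e1]
        refine sum_prod_le _ _ fun a b ha _ => ?_
        have e3 : (P.σ h s).1 = (pureAct (P.a₁ s)).1 := by
          change (P.X (G.upd (G.modeOf h) s) s).1 = _
          rw [hm]; rfl
        rw [e3] at ha
        have h4 : G.next s a b ∈ G.Avoid₁ := by
          rw [← pureAct_ne_zero ha]; exact P.h₁ s hA b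
        exact (P.V₂_one (by rw [G.modeOf_cons, hm]; rfl) h4).le
      · have e1 : P.V₂ h s = 1 := by
          unfold V₂; rw [hm]; dsimp only; rw [if_neg hA]
        rw [e1]
        exact sum_prod_le _ _ fun a b _ _ => (P.V₂_mem _ _).2
    · have e1 : P.V₂ h s = 1 := by unfold V₂; rw [hm]
      rw [e1]
      exact sum_prod_le _ _ fun a b _ _ => (P.V₂_mem _ _).2

/-- visiting probabilities under the profile depend only on mode and state -/
theorem reach_congr (T : Set S) (n : ℕ) : ∀ (h h' : Hist A B) (s : S),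
    G.modeOf h = G.modeOf h' → G.reach T P.σ P.τ n h s = G.reach T P.σ P.τ n h' s := by
  induction n with
  | zero =>
    intro h h' s _
    by_cases hs : s ∈ T
    · rw [G.reach_mem T _ _ _ h s hs, G.reach_mem T _ _ _ h' s hs]
    · rw [G.reach_zero T _ _ h s hs, G.reach_zero T _ _ h' s hs]
  | succ n ih =>
    intro h h' s hm
    by_cases hs : s ∈ T
    · rw [G.reach_mem T _ _ _ h s hs, G.reach_mem T _ _ _ h' s hs]
    · rw [G.reach_succ T _ _ n h s hs, G.reach_succ T _ _ n h' s hs]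
      have e1 : P.σ h s = P.σ h' s := by
        change P.X (G.upd (G.modeOf h) s) s = P.X (G.upd (G.modeOf h') s) s
        rw [hm]
      have e2 : P.τ h s = P.τ h' s := by
        change P.Y (G.upd (G.modeOf h) s) s = P.Y (G.upd (G.modeOf h') s) s
        rw [hm]
      rw [e1, e2]
      refine Finset.sum_congr rfl fun a _ => Finset.sum_congr rfl fun b _ => ?_
      rw [ih (⟨s, a, b⟩ :: h) (⟨s, a, b⟩ :: h') _ (by rw [G.modeOf_cons, G.modeOf_cons, hm])]

theorem lead_two : ∀ (k : ℕ) (h : Hist A B) (s : S), P.r₂ s ≤ k →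
    G.upd (G.modeOf h) s = Mode.two → s ∈ G.Avoid₂ → G.Lead₂ s →
    ∃ n, 1 ≤ G.reach G.T₂ P.σ P.τ n h s := by
  intro k
  induction k with
  | zero =>
    intro h s hk hm hA hL
    rcases P.k₂ s hL with h1 | h1
    · exact ⟨0, (G.reach_mem _ _ _ _ _ _ h1).ge⟩
    · exact absurd h1.2.2 (by omega)
  | succ k ih =>
    intro h s hk hm hA hL
    by_cases hT : s ∈ G.T₂
    · exact ⟨0, (G.reach_mem _ _ _ _ _ _ hT).ge⟩
    · obtain ⟨h1, h2, h3⟩ := (P.k₂ s hL).resolve_left hT
      obtain ⟨n, hn⟩ := ih (⟨s, P.a₂ s, P.b₂ s⟩ :: h) (G.next s (P.a₂ s) (P.b₂ s)) (by omega)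
        (by rw [G.modeOf_cons, hm]; rfl) h1 h2
      refine ⟨n + 1, ?_⟩
      rw [G.reach_succ _ _ _ n h s hT]
      have e1 : P.σ h s = pureAct (P.a₂ s) := by
        change P.X (G.upd (G.modeOf h) s) s = _
        rw [hm]; rfl
      have e2 : P.τ h s = pureAct (P.b₂ s) := by
        change P.Y (G.upd (G.modeOf h) s) s = _
        rw [hm]; rfl
      rw [e1, e2, sum_pure (P.a₂ s) (P.b₂ s)
        (fun a b => G.reach G.T₂ P.σ P.τ n (⟨s, a, b⟩ :: h) (G.next s a b))]
      exact hn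

theorem lead_one : ∀ (k : ℕ) (h : Hist A B) (s : S), P.r₁ s ≤ k →
    G.upd (G.modeOf h) s = Mode.one → s ∈ G.Avoid₁ → G.Lead₁ s →
    ∃ n, 1 ≤ G.reach G.T₁ P.σ P.τ n h s := by
  intro k
  induction k with
  | zero =>
    intro h s hk hm hA hL
    rcases P.k₁ s hL with h1 | h1
    · exact ⟨0, (G.reach_mem _ _ _ _ _ _ h1).ge⟩
    · exact absurd h1.2.2 (by omega)
  | succ k ih =>
    intro h s hk hm hA hL
    by_cases hT : s ∈ G.T₁
    · exact ⟨0, (G.reach_mem _ _ _ _ _ _ hT).ge⟩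
    · obtain ⟨h1, h2, h3⟩ := (P.k₁ s hL).resolve_left hT
      obtain ⟨n, hn⟩ := ih (⟨s, P.a₁ s, P.b₁ s⟩ :: h) (G.next s (P.a₁ s) (P.b₁ s)) (by omega)
        (by rw [G.modeOf_cons, hm]; rfl) h1 h2
      refine ⟨n + 1, ?_⟩
      rw [G.reach_succ _ _ _ n h s hT]
      have e1 : P.σ h s = pureAct (P.a₁ s) := by
        change P.X (G.upd (G.modeOf h) s) s = _
        rw [hm]; rfl
      have e2 : P.τ h s = pureAct (P.b₁ s) := by
        change P.Y (G.upd (G.modeOf h) s) s = _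
        rw [hm]; rfl
      rw [e1, e2, sum_pure (P.a₁ s) (P.b₁ s)
        (fun a b => G.reach G.T₁ P.σ P.τ n (⟨s, a, b⟩ :: h) (G.next s a b))]
      exact hn

/-- total visiting probability within `n` stages, from `s` with empty history -/
noncomputable def F (n : ℕ) (s : S) : ℝ :=
  G.reach G.T₁ P.σ P.τ n [] s + G.reach G.T₂ P.σ P.τ n [] s

theorem F_mono (s : S) : Monotone fun n => P.F n s := fun _ _ h =>
  add_le_add (G.reach_mono G.T₁ P.σ P.τ [] s h) (G.reach_mono G.T₂ P.σ P.τ [] s h)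

theorem F_bdd (s : S) : BddAbove (Set.range fun n => P.F n s) :=
  ⟨2, by
    rintro _ ⟨n, rfl⟩
    have h1 := G.reach_le_one G.T₁ P.σ P.τ n [] s
    have h2 := G.reach_le_one G.T₂ P.σ P.τ n [] s
    change G.reach G.T₁ P.σ P.τ n [] s + G.reach G.T₂ P.σ P.τ n [] s ≤ 2
    linarith⟩

noncomputable def g (s : S) : ℝ := ⨆ n, P.F n s

open Filter Topology in
theorem F_tendsto (s : S) : Tendsto (fun n => P.F n s) atTop (𝓝 (P.g s)) :=
  tendsto_atTop_ciSup (P.F_mono s) (P.F_bdd s)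

theorem F_le_g (n : ℕ) (s : S) : P.F n s ≤ P.g s := le_ciSup (P.F_bdd s) n

theorem one_le_g_settled {s : S} (hs : G.Settled s) : 1 ≤ P.g s := by
  rcases hc : G.cls s with _ | _ | _
  · exact absurd hs (G.cls_free.1 hc)
  · have h1 := G.cls_one.1 hc
    obtain ⟨n, hn⟩ := P.lead_one _ [] s le_rfl hc h1.2.1 h1.2.2
    have h2 := G.reach_nonneg G.T₂ P.σ P.τ n [] s
    have h3 := P.F_le_g n s
    unfold F at h3
    linarith
  · have h1 := G.cls_two.1 hc
    obtain ⟨n, hn⟩ := P.lead_two _ [] s le_rfl hc h1.1 h1.2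
    have h2 := G.reach_nonneg G.T₁ P.σ P.τ n [] s
    have h3 := P.F_le_g n s
    unfold F at h3
    linarith

open Filter Topology in
theorem g_harmonic {s : S} (hs : s ∈ P.D.U) :
    P.g s = ∑ a, P.D.x s a * ∑ b, P.D.y s b * P.g (G.next s a b) := by
  have hc : G.cls s = Mode.free := G.cls_free.2 (P.D.Uns s hs)
  have hstep : ∀ n, P.F (n + 1) s = ∑ a, P.D.x s a * ∑ b, P.D.y s b * P.F n (G.next s a b) := by
    intro n
    unfold F
    rw [G.reach_succ _ _ _ n [] s (P.D.noT₁ s hs), G.reach_succ _ _ _ n [] s (P.D.noT₂ s hs)]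
    have e1 : (P.σ [] s).1 = P.D.x s := by
      change (P.X (G.cls s) s).1 = _
      rw [hc]; rfl
    have e2 : (P.τ [] s).1 = P.D.y s := by
      change (P.Y (G.cls s) s).1 = _
      rw [hc]; rfl
    rw [e1, e2, ← Finset.sum_add_distrib]
    refine Finset.sum_congr rfl fun a _ => ?_
    rw [← Finset.sum_add_distrib, Finset.mul_sum]
    refine Finset.sum_congr rfl fun b _ => ?_
    have hm : G.modeOf (⟨s, a, b⟩ :: ([] : Hist A B)) = G.modeOf ([] : Hist A B) := by
      rw [G.modeOf_cons]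
      exact hc
    rw [P.reach_congr G.T₁ n _ _ (G.next s a b) hm, P.reach_congr G.T₂ n _ _ (G.next s a b) hm]
    ring
  have h1 : Tendsto (fun n => P.F (n + 1) s) atTop (𝓝 (P.g s)) :=
    (P.F_tendsto s).comp (tendsto_add_atTop_nat 1)
  have h2 : Tendsto (fun n => ∑ a, P.D.x s a * ∑ b, P.D.y s b * P.F n (G.next s a b)) atTop
      (𝓝 (∑ a, P.D.x s a * ∑ b, P.D.y s b * P.g (G.next s a b))) := by
    refine tendsto_finsetSum _ fun a _ => ?_
    refine Tendsto.const_mul _ ?_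
    refine tendsto_finsetSum _ fun b _ => ?_
    exact (P.F_tendsto _).const_mul _
  have h3 : (fun n => P.F (n + 1) s)
      = fun n => ∑ a, P.D.x s a * ∑ b, P.D.y s b * P.F n (G.next s a b) := funext hstep
  rw [h3] at h1
  exact tendsto_nhds_unique h1 h2

theorem one_le_g (hno : ∀ C : Finset S, ¬ P.D.Closed C) {s : S} (hs : s ∈ P.D.U) :
    1 ≤ P.g s := by
  classical
  by_contra hlt
  push Not at hlt
  obtain ⟨m, hm, hmin⟩ := Finset.exists_min_image (Finset.univ.filter fun t => t ∈ P.D.U) P.g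
    ⟨s, Finset.mem_filter.2 ⟨Finset.mem_univ _, hs⟩⟩
  rw [Finset.mem_filter] at hm
  have hmU := hm.2
  have hm1 : P.g m < 1 :=
    lt_of_le_of_lt (hmin s (Finset.mem_filter.2 ⟨Finset.mem_univ _, hs⟩)) hlt
  have hall : ∀ t ∈ P.D.U, ∀ a b, P.g m ≤ P.g (G.next t a b) := by
    intro t ht a b
    rcases P.D.Unext t ht a b with h | h
    · exact hm1.le.trans (P.one_le_g_settled h)
    · exact hmin _ (Finset.mem_filter.2 ⟨Finset.mem_univ _, h⟩)
  refine hno (Finset.univ.filter fun t => t ∈ P.D.U ∧ P.g t = P.g m)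
    ⟨⟨m, Finset.mem_filter.2 ⟨Finset.mem_univ _, hmU, rfl⟩⟩,
      fun t ht => (Finset.mem_filter.1 ht).2.1, fun t ht a b ha hb => ?_⟩
  obtain ⟨_, htU, htm⟩ := Finset.mem_filter.1 ht
  have h1 := P.g_harmonic htU
  have h2 : ∑ b, P.D.y t b * P.g (G.next t a b) = P.g m := by
    refine eq_of_avg_le (P.D.xmem t) (f := fun a => ∑ b, P.D.y t b * P.g (G.next t a b))
      (fun a _ => le_avg (P.D.ymem t) fun b _ => hall t htU a b) ?_ a ha
    rw [← h1, htm]
  have h3 : P.g (G.next t a b) = P.g m :=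
    eq_of_avg_le (P.D.ymem t) (f := fun b => P.g (G.next t a b))
      (fun b _ => hall t htU a b) h2.le b hb
  refine Finset.mem_filter.2 ⟨Finset.mem_univ _, ?_, h3⟩
  rcases P.D.Unext t htU a b with h | h
  · have := P.one_le_g_settled h
    linarith
  · exact h

theorem isNash (hU : G.Settled s₀ ∨ s₀ ∈ P.D.U) (hno : ∀ C : Finset S, ¬ P.D.Closed C) :
    G.IsNash s₀ P.σ P.τ := by
  have hI : P.Inv [] s₀ := by
    intro _ h2
    rcases hU with h | h
    · exact absurd h (G.cls_free.1 h2)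
    · exact h
  have hg : 1 ≤ P.g s₀ := by
    rcases hU with h | h
    · exact P.one_le_g_settled h
    · exact P.one_le_g hno h
  have b1 : ∀ σ', G.payoff G.T₁ σ' P.τ s₀ ≤ P.V₁ [] s₀ := fun σ' =>
    G.payoff_le _ _ _ fun n => P.bound₁ σ' n [] s₀ hI
  have b2 : ∀ τ', G.payoff G.T₂ P.σ τ' s₀ ≤ P.V₂ [] s₀ := fun τ' =>
    G.payoff_le _ _ _ fun n => P.bound₂ τ' n [] s₀ hI
  have hsum : 1 ≤ G.payoff G.T₁ P.σ P.τ s₀ + G.payoff G.T₂ P.σ P.τ s₀ := by
    refine hg.trans (ciSup_le fun n => ?_)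
    exact add_le_add (G.reach_le_payoff _ _ _ n s₀) (G.reach_le_payoff _ _ _ n s₀)
  have hV : P.V₁ [] s₀ + P.V₂ [] s₀ = 1 := by
    rw [P.V₁_free rfl, P.V₂_free rfl]; ring
  have c1 := b1 P.σ
  have c2 := b2 P.τ
  constructor
  · intro σ'
    have := b1 σ'
    linarith
  · intro τ'
    have := b2 τ'
    linarith

end Prof

end Pool.Agent.H40.Reach
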