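import Pool.Agent.H40.Reach.Reduce

/-! Exact Nash equilibria in prunable games. -/

namespace Pool.Agent.H40.Reach

open Set Relation

variable {S : Type} [Fintype S]

theorem Game.exists_nash_of_prunable {s₀ : S} {A B : S → Type} {G : Game S A B}
    (H : Game.Prunable s₀ G) :
    ∀ [∀ s, Fintype (A s)] [∀ s, Nonempty (A s)] [∀ s, Fintype (B s)] [∀ s, Nonempty (B s)],
      ∃ (σ : Strat A B A) (τ : Strat A B B), G.IsNash s₀ σ τ := by
  induction H with
  | tame h =>
    intro _ _ _ _
    exact Game.exists_nash _ s₀ h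
  | @prune A B G P Q hPn hQn hP hQ _ ih =>
    intro _ _ _ _
    classical
    have : ∀ s, Nonempty (P s) := fun s => (hPn s).to_subtype
    have : ∀ s, Nonempty (Q s) := fun s => (hQn s).to_subtype
    let _ : ∀ s, Fintype (P s) := fun s => Fintype.ofFinite _
    let _ : ∀ s, Fintype (Q s) := fun s => Fintype.ofFinite _
    obtain ⟨σ', τ', hN⟩ := ih
    obtain ⟨a₁, _, _, ha, _⟩ := G.exists_pos₁
    obtain ⟨_, b₂, _, hb, _⟩ := G.exists_pos₂
    exact ⟨_, _, nash_transport G P Q σ' τ' a₁ b₂ ha hb hP hQ hN⟩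

end Pool.Agent.H40.Reach
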