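import Pool.Agent.H40.Reach.Final

set_option linter.unusedSectionVars false

/-! Deleting self-punishing actions. -/

namespace Pool.Agent.H40.Reach

open Set Relation

variable {S : Type} {A B : S → Type}

open Classical in
/-- read a history as a history of the restricted game, if possible -/
noncomputable def lift {A B : S → Type} (P : (s : S) → Set (A s)) (Q : (s : S) → Set (B s)) :
    Hist A B → Option (Hist (fun s => P s) (fun s => Q s))
  | [] => some []
  | ⟨s, a, b⟩ :: h => if hab : a ∈ P s ∧ b ∈ Q s then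
      (lift P Q h).map fun h' => ⟨s, ⟨a, hab.1⟩, ⟨b, hab.2⟩⟩ :: h' else none

def unlift {A B : S → Type} (P : (s : S) → Set (A s)) (Q : (s : S) → Set (B s))
    (h : Hist (fun s => P s) (fun s => Q s)) : Hist A B :=
  h.map fun k => ⟨k.1, k.2.1.1, k.2.2.1⟩

theorem lift_cons {A B : S → Type} (P : (s : S) → Set (A s)) (Q : (s : S) → Set (B s))
    {s : S} {a : A s} {b : B s} (ha : a ∈ P s) (hb : b ∈ Q s) {h : Hist A B}
    {h' : Hist (fun s => P s) (fun s => Q s)} (hh : lift P Q h = some h') :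
    lift P Q (⟨s, a, b⟩ :: h) = some (⟨s, ⟨a, ha⟩, ⟨b, hb⟩⟩ :: h') := by
  simp only [lift]
  rw [dif_pos ⟨ha, hb⟩, hh]
  rfl

theorem lift_cons_none {A B : S → Type} (P : (s : S) → Set (A s)) (Q : (s : S) → Set (B s))
    {s : S} {a : A s} {b : B s} (hab : ¬ (a ∈ P s ∧ b ∈ Q s)) {h : Hist A B} :
    lift P Q (⟨s, a, b⟩ :: h) = none := by
  simp only [lift]
  rw [dif_neg hab]

theorem lift_cons_of_none {A B : S → Type} (P : (s : S) → Set (A s)) (Q : (s : S) → Set (B s))
    {s : S} {a : A s} {b : B s} {h : Hist A B} (hh : lift P Q h = none) :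
    lift P Q (⟨s, a, b⟩ :: h) = none := by
  simp only [lift]
  split_ifs
  · rw [hh]; rfl
  · rfl

theorem unlift_of_lift {A B : S → Type} (P : (s : S) → Set (A s)) (Q : (s : S) → Set (B s)) :
    ∀ (h : Hist A B) (h' : Hist (fun s => P s) (fun s => Q s)), lift P Q h = some h' →
      unlift P Q h' = h
  | [], h', hh => by
    simp only [lift, Option.some.injEq] at hh
    rw [← hh]; rfl
  | ⟨s, a, b⟩ :: h, h', hh => by
    by_cases hab : a ∈ P s ∧ b ∈ Q s
    · simp only [lift] at hh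
      rw [dif_pos hab] at hh
      rcases hl : lift P Q h with _ | h''
      · rw [hl] at hh; simp at hh
      · rw [hl] at hh
        simp only [Option.map_some, Option.some.injEq] at hh
        rw [← hh]
        simp only [unlift, List.map_cons]
        have := unlift_of_lift P Q h h'' hl
        simp only [unlift] at this
        rw [this]
    · rw [lift_cons_none P Q hab] at hh
      exact absurd hh (by simp)

section
variable {K : Type} [Fintype K] (P : Set K) [Fintype P]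

open Classical in
theorem sum_ext (f : P → ℝ) (g : K → ℝ) :
    ∑ a : K, (if ha : a ∈ P then f ⟨a, ha⟩ else 0) * g a = ∑ a : P, f a * g a.1 := by
  have h1 : ∑ a : P, f a * g a.1 = ∑ a ∈ (Finset.univ : Finset P).map (Function.Embedding.subtype _),
      (if ha : a ∈ P then f ⟨a, ha⟩ else 0) * g a := by
    rw [Finset.sum_map]
    refine Finset.sum_congr rfl fun a _ => ?_
    change f a * g a.1 = (if ha : a.1 ∈ P then f ⟨a.1, ha⟩ else 0) * g a.1
    rw [dif_pos a.2]
  rw [h1]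
  symm
  refine Finset.sum_subset (Finset.subset_univ _) fun a _ ha => ?_
  rw [dif_neg, zero_mul]
  intro haP
  exact ha (Finset.mem_map.2 ⟨⟨a, haP⟩, Finset.mem_univ _, rfl⟩)

open Classical in
/-- push a mixed action on the allowed actions forward -/
noncomputable def push (p : stdSimplex ℝ P) : stdSimplex ℝ K :=
  ⟨fun a => if ha : a ∈ P then p.1 ⟨a, ha⟩ else 0, fun a => by
    dsimp only
    split_ifs
    · exact p.2.1 _
    · exact le_rfl, by
    have h := sum_ext P p.1 (fun _ => 1)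
    simp only [mul_one] at h
    rw [h]
    exact p.2.2⟩

theorem push_sum (p : stdSimplex ℝ P) (g : K → ℝ) :
    ∑ a : K, (push P p).1 a * g a = ∑ a : P, p.1 a * g a.1 := sum_ext P p.1 g

theorem push_of_notMem (p : stdSimplex ℝ P) {a : K} (ha : a ∉ P) : (push P p).1 a = 0 := by
  classical
  simp only [push]
  rw [dif_neg ha]

/-- A mixed action is dominated by a multiple of a mixed action on the allowed actions. -/
theorem exists_normalize [Nonempty P] (p : stdSimplex ℝ K) : ∃ q : stdSimplex ℝ P, ∃ m : ℝ,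
    0 ≤ m ∧ m ≤ 1 ∧ ∀ a : P, p.1 a.1 = m * q.1 a := by
  classical
  have h1 : ∑ a : P, p.1 a.1 ≤ 1 := by
    rw [← p.2.2]
    have h2 : ∑ a : P, p.1 a.1 = ∑ a ∈ (Finset.univ : Finset P).map (Function.Embedding.subtype _),
        p.1 a := by
      rw [Finset.sum_map]; rfl
    rw [h2]
    exact Finset.sum_le_sum_of_subset_of_nonneg (Finset.subset_univ _) fun a _ _ => p.2.1 a
  have h0 : 0 ≤ ∑ a : P, p.1 a.1 := Finset.sum_nonneg fun a _ => p.2.1 _
  rcases h0.eq_or_lt with h | h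
  · refine ⟨⟨_, ite_eq_mem_stdSimplex ℝ (Classical.arbitrary P)⟩, 0, le_rfl, zero_le_one,
      fun a => ?_⟩
    rw [zero_mul]
    exact (Finset.sum_eq_zero_iff_of_nonneg fun (a : P) _ => p.2.1 a.1).1 h.symm a
      (Finset.mem_univ _)
  · refine ⟨⟨fun a => p.1 a.1 / ∑ a : P, p.1 a.1, fun a => div_nonneg (p.2.1 _) h0, ?_⟩,
      ∑ a : P, p.1 a.1, h0, h1, fun a => ?_⟩
    · rw [← Finset.sum_div]; exact div_self h.ne'
    · dsimp only
      field_simp

end

theorem sum_assoc {I J : Type*} [Fintype I] [Fintype J] (p : I → ℝ) (q : J → ℝ)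
    (f : I → J → ℝ) : ∑ a, ∑ b, p a * q b * f a b = ∑ a, p a * ∑ b, q b * f a b := by
  simp only [Finset.mul_sum, mul_assoc]

theorem sum_assoc' {I J : Type*} [Fintype I] [Fintype J] (p : I → ℝ) (q : J → ℝ)
    (f : I → J → ℝ) : ∑ a, ∑ b, p a * q b * f a b = ∑ b, q b * ∑ a, p a * f a b := by
  rw [Finset.sum_comm]
  simp only [Finset.mul_sum]
  refine Finset.sum_congr rfl fun b _ => Finset.sum_congr rfl fun a _ => ?_
  ring

section transport

variable [Fintype S] [∀ s, Fintype (A s)] [∀ s, Fintype (B s)]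
  [∀ s, Nonempty (A s)] [∀ s, Nonempty (B s)] (G : Game S A B)
  (P : (s : S) → Set (A s)) (Q : (s : S) → Set (B s)) [∀ s, Fintype (P s)] [∀ s, Fintype (Q s)]
  [∀ s, Nonempty (P s)] [∀ s, Nonempty (Q s)]
  (σ' : Strat (fun s => P s) (fun s => Q s) (fun s => P s))
  (τ' : Strat (fun s => P s) (fun s => Q s) (fun s => Q s))
  (a₁ : (s : S) → A s) (b₂ : (s : S) → B s)

/-- player 1 follows `σ'` until a deleted action occurs, then plays `a₁` -/
noncomputable def ext₁ : Strat A B A := fun h s =>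
  match lift P Q h with
  | some h' => push (P s) (σ' h' s)
  | none => pureAct (a₁ s)

/-- player 2 follows `τ'` until a deleted action occurs, then plays `b₂` -/
noncomputable def ext₂ : Strat A B B := fun h s =>
  match lift P Q h with
  | some h' => push (Q s) (τ' h' s)
  | none => pureAct (b₂ s)

theorem ext₁_some {h : Hist A B} {h' : Hist (fun s => P s) (fun s => Q s)}
    (hh : lift P Q h = some h') (s : S) : ext₁ P Q σ' a₁ h s = push (P s) (σ' h' s) := by
  unfold ext₁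
  rw [hh]

theorem ext₂_some {h : Hist A B} {h' : Hist (fun s => P s) (fun s => Q s)}
    (hh : lift P Q h = some h') (s : S) : ext₂ P Q τ' b₂ h s = push (Q s) (τ' h' s) := by
  unfold ext₂
  rw [hh]

theorem ext₁_none {h : Hist A B} (hh : lift P Q h = none) (s : S) :
    ext₁ P Q σ' a₁ h s = pureAct (a₁ s) := by
  unfold ext₁
  rw [hh]

theorem ext₂_none {h : Hist A B} (hh : lift P Q h = none) (s : S) :
    ext₂ P Q τ' b₂ h s = pureAct (b₂ s) := by
  unfold ext₂
  rw [hh]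

theorem reach_onpath (T : Set S) : ∀ (n : ℕ) (h : Hist A B)
    (h' : Hist (fun s => P s) (fun s => Q s)) (s : S), lift P Q h = some h' →
    G.reach T (ext₁ P Q σ' a₁) (ext₂ P Q τ' b₂) n h s =
      (G.restrict P Q).reach T σ' τ' n h' s := by
  intro n
  induction n with
  | zero =>
    intro h h' s _
    by_cases hs : s ∈ T
    · rw [G.reach_mem _ _ _ _ _ _ hs, (G.restrict P Q).reach_mem _ _ _ _ _ _ hs]
    · rw [G.reach_zero _ _ _ _ _ hs, (G.restrict P Q).reach_zero _ _ _ _ _ hs]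
  | succ n ih =>
    intro h h' s hh
    by_cases hs : s ∈ T
    · rw [G.reach_mem _ _ _ _ _ _ hs, (G.restrict P Q).reach_mem _ _ _ _ _ _ hs]
    · rw [G.reach_succ _ _ _ _ _ _ hs, (G.restrict P Q).reach_succ _ _ _ _ _ _ hs,
        ext₁_some P Q σ' a₁ hh, ext₂_some P Q τ' b₂ hh, sum_assoc, sum_assoc, push_sum]
      refine Finset.sum_congr rfl fun a _ => ?_
      rw [push_sum]
      congr 1
      refine Finset.sum_congr rfl fun b _ => ?_
      congr 1
      exact ih _ _ _ (lift_cons P Q a.2 b.2 hh)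

theorem reach_dead₁ (hb : ∀ s ∈ G.Avoid₂, ∀ a, G.next s a (b₂ s) ∈ G.Avoid₂)
    (ρ : Strat A B A) : ∀ (n : ℕ) (h : Hist A B) (s : S), lift P Q h = none →
    s ∈ G.Avoid₂ → G.reach G.T₁ ρ (ext₂ P Q τ' b₂) n h s = 0 := by
  intro n
  induction n with
  | zero =>
    intro h s _ hs
    exact G.reach_zero _ _ _ _ _ (G.avoid₂_spec hs).1
  | succ n ih =>
    intro h s hh hs
    refine le_antisymm ?_ (G.reach_nonneg _ _ _ _ _ _)
    rw [G.reach_succ _ _ _ _ _ _ (G.avoid₂_spec hs).1, ext₂_none P Q τ' b₂ hh]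
    refine sum_prod_le _ _ fun a b _ hb' => ?_
    refine (ih _ _ (lift_cons_of_none P Q hh) ?_).le
    rw [← pureAct_ne_zero hb']
    exact hb s hs a

theorem reach_dead₂ (ha : ∀ s ∈ G.Avoid₁, ∀ b, G.next s (a₁ s) b ∈ G.Avoid₁)
    (ρ : Strat A B B) : ∀ (n : ℕ) (h : Hist A B) (s : S), lift P Q h = none →
    s ∈ G.Avoid₁ → G.reach G.T₂ (ext₁ P Q σ' a₁) ρ n h s = 0 := by
  intro n
  induction n with
  | zero =>
    intro h s _ hs
    exact G.reach_zero _ _ _ _ _ (G.avoid₁_spec hs).1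
  | succ n ih =>
    intro h s hh hs
    refine le_antisymm ?_ (G.reach_nonneg _ _ _ _ _ _)
    rw [G.reach_succ _ _ _ _ _ _ (G.avoid₁_spec hs).1, ext₁_none P Q σ' a₁ hh]
    refine sum_prod_le _ _ fun a b ha' _ => ?_
    refine (ih _ _ (lift_cons_of_none P Q hh) ?_).le
    rw [← pureAct_ne_zero ha']
    exact ha s hs b

theorem dev₁ (hb : ∀ s ∈ G.Avoid₂, ∀ a, G.next s a (b₂ s) ∈ G.Avoid₂)
    (hP : ∀ s, ∀ a ∉ P s, ∀ b ∈ Q s, G.next s a b ∈ G.Avoid₂) (ρ : Strat A B A) :
    ∃ ρ' : Strat (fun s => P s) (fun s => Q s) (fun s => P s), ∀ (n : ℕ) (h : Hist A B)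
      (h' : Hist (fun s => P s) (fun s => Q s)) (s : S), lift P Q h = some h' →
      G.reach G.T₁ ρ (ext₂ P Q τ' b₂) n h s ≤
        (G.restrict P Q).reach G.T₁ ρ' τ' n h' s := by
  classical
  choose q m hm0 hm1 hq using fun (h' : Hist (fun s => P s) (fun s => Q s)) (s : S) =>
    exists_normalize (P s) (ρ (unlift P Q h') s)
  refine ⟨q, fun n => ?_⟩
  induction n with
  | zero =>
    intro h h' s _
    by_cases hs : s ∈ G.T₁
    · rw [G.reach_mem _ _ _ _ _ _ hs, (G.restrict P Q).reach_mem _ _ _ _ _ _ hs]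
    · rw [G.reach_zero _ _ _ _ _ hs, (G.restrict P Q).reach_zero _ _ _ _ _ hs]
  | succ n ih =>
    intro h h' s hh
    by_cases hs : s ∈ G.T₁
    · rw [G.reach_mem _ _ _ _ _ _ hs, (G.restrict P Q).reach_mem _ _ _ _ _ _ hs]
    · rw [G.reach_succ _ _ _ _ _ _ hs, (G.restrict P Q).reach_succ _ _ _ _ _ _ hs,
        ext₂_some P Q τ' b₂ hh, sum_assoc, sum_assoc]
      set F' : P s → ℝ := fun a => ∑ b, (τ' h' s).1 b *
        (G.restrict P Q).reach G.T₁ q τ' n (⟨s, a, b⟩ :: h') ((G.restrict P Q).next s a b)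
        with hF'
      have hF'0 : ∀ a, 0 ≤ F' a := fun a => Finset.sum_nonneg fun b _ =>
        mul_nonneg ((τ' h' s).2.1 b) ((G.restrict P Q).reach_nonneg _ _ _ _ _ _)
      have h1 : ∀ a, ∑ b, (push (Q s) (τ' h' s)).1 b *
          G.reach G.T₁ ρ (ext₂ P Q τ' b₂) n (⟨s, a, b⟩ :: h) (G.next s a b)
          ≤ if ha : a ∈ P s then F' ⟨a, ha⟩ else 0 := by
        intro a
        rw [push_sum]
        split_ifs with ha
        · refine Finset.sum_le_sum fun b _ => mul_le_mul_of_nonneg_left ?_ ((τ' h' s).2.1 b)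
          exact ih _ _ _ (lift_cons P Q ha b.2 hh)
        · refine Finset.sum_nonpos fun b _ => ?_
          rw [reach_dead₁ G P Q τ' b₂ hb ρ n _ _
            (lift_cons_none P Q fun h => ha h.1) (hP s a ha b.1 b.2), mul_zero]
      calc ∑ a, (ρ h s).1 a * ∑ b, (push (Q s) (τ' h' s)).1 b *
            G.reach G.T₁ ρ (ext₂ P Q τ' b₂) n (⟨s, a, b⟩ :: h) (G.next s a b)
          ≤ ∑ a, (ρ h s).1 a * (if ha : a ∈ P s then F' ⟨a, ha⟩ else 0) :=
            Finset.sum_le_sum fun a _ => mul_le_mul_of_nonneg_left (h1 a) ((ρ h s).2.1 a)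
        _ = ∑ a, (if ha : a ∈ P s then F' ⟨a, ha⟩ else 0) * (ρ h s).1 a :=
            Finset.sum_congr rfl fun a _ => mul_comm _ _
        _ = ∑ a : P s, F' a * (ρ h s).1 a.1 := sum_ext (P s) F' (ρ h s).1
        _ = ∑ a : P s, m h' s * ((q h' s).1 a * F' a) := by
            refine Finset.sum_congr rfl fun a _ => ?_
            have := hq h' s a
            rw [unlift_of_lift P Q h h' hh] at this
            rw [this]; ring
        _ = m h' s * ∑ a : P s, (q h' s).1 a * F' a := by rw [Finset.mul_sum]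
        _ ≤ 1 * ∑ a : P s, (q h' s).1 a * F' a :=
            mul_le_mul_of_nonneg_right (hm1 h' s)
              (Finset.sum_nonneg fun a _ => mul_nonneg ((q h' s).2.1 a) (hF'0 a))
        _ = _ := one_mul _

theorem dev₂ (ha : ∀ s ∈ G.Avoid₁, ∀ b, G.next s (a₁ s) b ∈ G.Avoid₁)
    (hQ : ∀ s, ∀ b ∉ Q s, ∀ a ∈ P s, G.next s a b ∈ G.Avoid₁) (ρ : Strat A B B) :
    ∃ ρ' : Strat (fun s => P s) (fun s => Q s) (fun s => Q s), ∀ (n : ℕ) (h : Hist A B)
      (h' : Hist (fun s => P s) (fun s => Q s)) (s : S), lift P Q h = some h' →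
      G.reach G.T₂ (ext₁ P Q σ' a₁) ρ n h s ≤
        (G.restrict P Q).reach G.T₂ σ' ρ' n h' s := by
  classical
  choose q m hm0 hm1 hq using fun (h' : Hist (fun s => P s) (fun s => Q s)) (s : S) =>
    exists_normalize (Q s) (ρ (unlift P Q h') s)
  refine ⟨q, fun n => ?_⟩
  induction n with
  | zero =>
    intro h h' s _
    by_cases hs : s ∈ G.T₂
    · rw [G.reach_mem _ _ _ _ _ _ hs, (G.restrict P Q).reach_mem _ _ _ _ _ _ hs]
    · rw [G.reach_zero _ _ _ _ _ hs, (G.restrict P Q).reach_zero _ _ _ _ _ hs]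
  | succ n ih =>
    intro h h' s hh
    by_cases hs : s ∈ G.T₂
    · rw [G.reach_mem _ _ _ _ _ _ hs, (G.restrict P Q).reach_mem _ _ _ _ _ _ hs]
    · rw [G.reach_succ _ _ _ _ _ _ hs, (G.restrict P Q).reach_succ _ _ _ _ _ _ hs,
        ext₁_some P Q σ' a₁ hh, sum_assoc', sum_assoc']
      set F' : Q s → ℝ := fun b => ∑ a, (σ' h' s).1 a *
        (G.restrict P Q).reach G.T₂ σ' q n (⟨s, a, b⟩ :: h') ((G.restrict P Q).next s a b)
        with hF'
      have hF'0 : ∀ b, 0 ≤ F' b := fun b => Finset.sum_nonneg fun a _ =>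
        mul_nonneg ((σ' h' s).2.1 a) ((G.restrict P Q).reach_nonneg _ _ _ _ _ _)
      have h1 : ∀ b, ∑ a, (push (P s) (σ' h' s)).1 a *
          G.reach G.T₂ (ext₁ P Q σ' a₁) ρ n (⟨s, a, b⟩ :: h) (G.next s a b)
          ≤ if hb : b ∈ Q s then F' ⟨b, hb⟩ else 0 := by
        intro b
        rw [push_sum]
        split_ifs with hb
        · refine Finset.sum_le_sum fun a _ => mul_le_mul_of_nonneg_left ?_ ((σ' h' s).2.1 a)
          exact ih _ _ _ (lift_cons P Q a.2 hb hh)
        · refine Finset.sum_nonpos fun a _ => ?_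
          rw [reach_dead₂ G P Q σ' a₁ ha ρ n _ _
            (lift_cons_none P Q fun h => hb h.2) (hQ s b hb a.1 a.2), mul_zero]
      calc ∑ b, (ρ h s).1 b * ∑ a, (push (P s) (σ' h' s)).1 a *
            G.reach G.T₂ (ext₁ P Q σ' a₁) ρ n (⟨s, a, b⟩ :: h) (G.next s a b)
          ≤ ∑ b, (ρ h s).1 b * (if hb : b ∈ Q s then F' ⟨b, hb⟩ else 0) :=
            Finset.sum_le_sum fun b _ => mul_le_mul_of_nonneg_left (h1 b) ((ρ h s).2.1 b)
        _ = ∑ b, (if hb : b ∈ Q s then F' ⟨b, hb⟩ else 0) * (ρ h s).1 b :=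
            Finset.sum_congr rfl fun b _ => mul_comm _ _
        _ = ∑ b : Q s, F' b * (ρ h s).1 b.1 := sum_ext (Q s) F' (ρ h s).1
        _ = ∑ b : Q s, m h' s * ((q h' s).1 b * F' b) := by
            refine Finset.sum_congr rfl fun b _ => ?_
            have := hq h' s b
            rw [unlift_of_lift P Q h h' hh] at this
            rw [this]; ring
        _ = m h' s * ∑ b : Q s, (q h' s).1 b * F' b := by rw [Finset.mul_sum]
        _ ≤ 1 * ∑ b : Q s, (q h' s).1 b * F' b :=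
            mul_le_mul_of_nonneg_right (hm1 h' s)
              (Finset.sum_nonneg fun b _ => mul_nonneg ((q h' s).2.1 b) (hF'0 b))
        _ = _ := one_mul _

theorem nash_transport {s₀ : S} (hab : ∀ s ∈ G.Avoid₁, ∀ b, G.next s (a₁ s) b ∈ G.Avoid₁)
    (hbb : ∀ s ∈ G.Avoid₂, ∀ a, G.next s a (b₂ s) ∈ G.Avoid₂)
    (hP : ∀ s, ∀ a ∉ P s, ∀ b ∈ Q s, G.next s a b ∈ G.Avoid₂)
    (hQ : ∀ s, ∀ b ∉ Q s, ∀ a ∈ P s, G.next s a b ∈ G.Avoid₁)
    (hN : (G.restrict P Q).IsNash s₀ σ' τ') :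
    G.IsNash s₀ (ext₁ P Q σ' a₁) (ext₂ P Q τ' b₂) := by
  have e : ∀ T, G.payoff T (ext₁ P Q σ' a₁) (ext₂ P Q τ' b₂) s₀ =
      (G.restrict P Q).payoff T σ' τ' s₀ := by
    intro T
    unfold Game.payoff
    congr 1
    funext n
    exact reach_onpath G P Q σ' τ' a₁ b₂ T n [] [] s₀ rfl
  constructor
  · intro ρ
    rw [e]
    obtain ⟨ρ', h⟩ := dev₁ G P Q τ' b₂ hbb hP ρ
    refine le_trans ?_ (hN.1 ρ')
    refine G.payoff_le _ _ _ fun n => (h n [] [] s₀ rfl).trans ?_
    exact (G.restrict P Q).reach_le_payoff _ _ _ n s₀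
  · intro ρ
    rw [e]
    obtain ⟨ρ', h⟩ := dev₂ G P Q σ' a₁ hab hQ ρ
    refine le_trans ?_ (hN.2 ρ')
    refine G.payoff_le _ _ _ fun n => (h n [] [] s₀ rfl).trans ?_
    exact (G.restrict P Q).reach_le_payoff _ _ _ n s₀

end transport

end Pool.Agent.H40.Reach
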